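import Pool.Agent.Run7.h696.CF.FinC
import Pool.Agent.Run7.h225.HG.Tup
import Pool.Agent.Run7.h696.CF.Ev

/-!
# Periods of hypergeometric motives at correlated fibres: for almost all `t` there are no relations of bounded degree between
the periods of the fibres `1 / ℓ_1(t), …, 1 / ℓ_r(t)`, `ℓ_j` linear polynomials, except those of the single families

Let `α_1, …, α_n` be rational numbers which are not integers with the sum `0`, `n ≥ 2`, `θ = z d/dz` and
`Q(x) = ∏_j (x + α_j)`. We consider the hypergeometric operators `θ^n - z Q(θ)`. The exponents at `z = 0` are `0, …, 0`, so the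
monodromy at `0` is maximally unipotent, the exponents at infinity are the `α_j`, and the monodromy at `z = 1` is unipotent.
The Frobenius method gives the basis `f_0, …, f_{n-1}` of solutions. The periods of the fibres of the family of
hypergeometric motives near `z = 0` are linear combinations of the numbers `(θ^i f_j)(z)` with constant coefficients.

For finitely many such equations `e_j` and linear polynomials `ℓ_j(t) = a_j t + b_j` over `ℚ` we consider the `j`-th family at
the fibre `1 / ℓ_j(t)`, for one equation and different `ℓ_j`, or for different equations; for example one family at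
the fibres `1 / t, 1 / (t - 1), …, 1 / (t - s)`. The fibres are correlated: the points of the product family lie on one
rational curve in the product of the bases. We prove that for almost all tuples `(t_i)` of positive integers all relations
of bounded degree, over any finite dimensional space of constants, between logarithms of the `t_i - τ_i` and the entries of
the period matrices at all the fibres `1 / ℓ_ij(t_i)` come from the determinants and the bilinear relations of the self-dual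
equations.

The condition on the equations and polynomials is that if `ℓ_i` and `ℓ_j` have the value `1` at the same point then the
exponents at infinity of `e_i` are not those of `e_j` or of its dual modulo `ℤ`, and that there is an integer `τ` with
`ℓ_j(τ) ≤ 0` for all `j`. If all `a_j` are positive, then there is always such a `τ`.

Proof of the functional part (`Pool/Agent/Run7/h696/CF`): the pull-back of the `j`-th system has a transvection as local
monodromy at the point with `ℓ_j = 1` and no other singular point between this point and `t = ∞` on the side of `τ` where it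
lies. The local monodromy at the singular points with the largest distance from `τ` and their conjugates by the monodromy
at `∞` generate the product of the groups of the families which are singular there; so these families may be replaced by
constants in all relations, and one goes on with the remaining ones.
-/

set_option autoImplicit false

open PowerSeries Pool.Agent.Y119.HZ Pool.Agent.Run7.h225.HG Pool.Agent.Run7.h696.CF Run7.h893.HO

namespace Pool.Agent.Results.MP_77d3f5_ag.CorrelatedFibresInBoxes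

/-- A hypergeometric equation `θ^n f = z ∏_j (θ + α_j) f`. -/
structure Eqn where
  n : ℕ
  α : Fin n → ℚ

/-- the dual equation (the exponents at infinity are `-α_j`) -/
def Eqn.dual (e : Eqn) : Eqn := ⟨e.n, fun j => -e.α j⟩

/-- the multiset of the fractional parts of the `α_j` -/
def Eqn.frac (e : Eqn) : Multiset ℚ := Multiset.map (fun j => Int.fract (e.α j)) Finset.univ.val

/-- the polynomial `Q = ∏_j (x + α_j)` -/
noncomputable def Eqn.poly (e : Eqn) : Polynomial ℚ := ∏ j, (Polynomial.X + Polynomial.C (e.α j))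

/-- `Q(-x) = Q(x)` -/
def Eqn.Symplectic (e : Eqn) : Prop := e.poly.comp (-Polynomial.X) = e.poly

/-- The order is at least two, the exponents at infinity are not integers, their sum is `0`, and either the fractional parts
of the `α_j` and of the `-α_j` are different multisets or `Q(-x) = Q(x)`. -/
def Eqn.Admissible (e : Eqn) : Prop :=
  2 ≤ e.n ∧ (∀ j, ∀ a : ℤ, e.α j ≠ a) ∧ ∑ j, e.α j = 0 ∧ (e.frac ≠ e.dual.frac ∨ e.Symplectic)

/-- A list of equations `e_j`, linear polynomials `ℓ_j(t) = a_j t + b_j` and an integer `τ`: the equations are admissible,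
`a_j ≠ 0` and `ℓ_j(τ) ≤ 0`, and if two polynomials have the value `1` at the same point, then the exponents at infinity
of the two equations, and of one of them and of the dual of the other one, are different modulo `ℤ`. -/
def Good {r : ℕ} (e : Fin r → Eqn) (a b : Fin r → ℚ) (τ : ℤ) : Prop :=
  (∀ j, (e j).Admissible ∧ a j ≠ 0 ∧ a j * τ + b j ≤ 0) ∧
  ∀ i j, i ≠ j → (1 - b i) / a i = (1 - b j) / a j → (e i).frac ≠ (e j).frac ∧ (e i).frac ≠ (e j).dual.frac

/-- the power series `k + ε` in the variable `ε` -/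
noncomputable def shift (k : ℕ) : PowerSeries ℚ := C (k : ℚ) + X

/-- `a_k(ε) = ∏_{l < k} Q(l + ε) / (l + 1 + ε)^n`. The series `∑_k a_k(ε) z^(k + ε)` solves the equation
`(θ^n - z Q(θ)) f = ε^n z^ε`, hence its coefficients `f_j` at `ε^j` with `j < n` are solutions of the homogeneous
equation. -/
noncomputable def Eqn.frob (e : Eqn) (k : ℕ) : PowerSeries ℚ :=
  ∏ l ∈ Finset.range k, (Polynomial.aeval (shift l) e.poly * ((shift (l + 1))⁻¹) ^ e.n)

/-- The matrix with the entries `(θ^i f_j)(z)`, `0 < |z| < 1`, where `f_j(z)` is the coefficient of `ε^j` in the series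
`∑_k a_k(ε) z^(k + ε)`, `z^ε = ∑_l (log z)^l ε^l / l!`, with the principal value of the logarithm. -/
noncomputable def Eqn.Y (e : Eqn) (z : ℂ) : Matrix (Fin e.n) (Fin e.n) ℂ :=
  Matrix.of fun i j => ∑ l ∈ Finset.range ((j : ℕ) + 1), (Complex.log z ^ l / (l.factorial : ℂ)) *
    ∑' k : ℕ, ((coeff ((j : ℕ) - l) (shift k ^ (i : ℕ) * e.frob k) : ℚ) : ℂ) * z ^ k

/-- The matrix of the alternating form: the entry `(i, j)` is `(-1)^i q_{i+j+1-n}` for `i + j + 1 ≥ n` and `0`
otherwise, where `q_l` are the coefficients of `Q`. -/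
noncomputable def Eqn.J (e : Eqn) : Matrix (Fin e.n) (Fin e.n) ℂ :=
  Matrix.of fun i j => if e.n ≤ (i : ℕ) + j + 1 then (((-1) ^ (i : ℕ) * e.poly.coeff (i + j + 1 - e.n) : ℚ) : ℂ) else 0

/-- The group of the equation: `det X = 1`, and `Xᵀ J X = J` if `Q(-x) = Q(x)`. -/
def Eqn.G (e : Eqn) : Set (Matrix (Fin e.n) (Fin e.n) ℂ) :=
  {X | X.det = 1 ∧ (e.Symplectic → X.transpose * e.J * X = e.J)}

/-- the point with the coordinates `l_i` and the entries of the matrices `X_ij` -/
def point {k : ℕ} {r : Fin k → ℕ} {e : ∀ i, Fin (r i) → Eqn} (l : Fin k → ℂ)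
    (X : ∀ i j, Matrix (Fin (e i j).n) (Fin (e i j).n) ℂ) :
    (Σ i : Fin k, Option (Σ j : Fin (r i), Fin (e i j).n × Fin (e i j).n)) → ℂ
  | ⟨i, none⟩ => l i
  | ⟨i, some ⟨j, p⟩⟩ => X i j p.1 p.2

/-- Some `t_i` is at most `τ_i` or some `ℓ_ij(t_i)` has absolute value at most `1`. -/
def Small {k : ℕ} {r : Fin k → ℕ} (a b : ∀ i, Fin (r i) → ℚ) (τ : Fin k → ℤ) (t : Fin k → ℕ) : Prop :=
  ∃ i, (t i : ℤ) ≤ τ i ∨ ∃ j, |a i j * t i + b i j| ≤ 1

/-- There is a polynomial relation of degree `≤ δ` with coefficients in `V` between the numbers `log (t_i - τ_i)` and the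
entries of the matrices `Y_ij(1 / ℓ_ij(t_i)) Ω_ij` which does not vanish identically on the set of the points with arbitrary
coordinates `l_i` and the matrices `X_ij Ω_ij` with `X_ij` in the group of `e_ij`. -/
def Exceptional (δ : ℕ) (V : Submodule ℚ ℂ) {k : ℕ} {r : Fin k → ℕ} (e : ∀ i, Fin (r i) → Eqn) (a b : ∀ i, Fin (r i) → ℚ)
    (τ : Fin k → ℤ) (Ω : ∀ i j, Matrix (Fin (e i j).n) (Fin (e i j).n) ℂ) (t : Fin k → ℕ) : Prop :=
  ∃ P : MvPolynomial (Σ i : Fin k, Option (Σ j : Fin (r i), Fin (e i j).n × Fin (e i j).n)) ℂ,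
    P.totalDegree ≤ δ ∧ (∀ s, P.coeff s ∈ V) ∧
    MvPolynomial.aeval (point (fun i => ((Real.log ((t i : ℝ) - (τ i : ℝ)) : ℝ) : ℂ)) fun i j =>
      (e i j).Y (1 / ((a i j : ℂ) * (t i : ℂ) + (b i j : ℂ))) * Ω i j) P = 0 ∧
    ∃ (l : Fin k → ℂ) (X : ∀ i j, Matrix (Fin (e i j).n) (Fin (e i j).n) ℂ),
      (∀ i j, X i j ∈ (e i j).G) ∧ MvPolynomial.aeval (point l fun i j => X i j * Ω i j) P ≠ 0

theorem frob_eq (e : Eqn) (k : ℕ) : e.frob k = Pool.Agent.Y119.HY.aq e.n e.poly k := rfl

theorem J_eq (e : Eqn) : e.J = Pool.Agent.Y119.HY.cm (Pool.Agent.Y119.HY.Jm e.n e.poly) := by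
  ext i j
  rw [Pool.Agent.Y119.HY.cm_apply]
  unfold Eqn.J Pool.Agent.Y119.HY.Jm
  rw [Matrix.of_apply, Matrix.of_apply]
  split_ifs
  · rfl
  · simp

theorem Y_eq (e : Eqn) (z : ℂ) : e.Y z = Pool.Agent.Y119.HY.Hf (Pool.Agent.Y119.HY.Hc e.n e.poly) z *
    Pool.Agent.Y119.HY.E (Pool.Agent.Y119.HY.cm (Pool.Agent.Y119.HY.Am e.n)) (Complex.log z) := by
  ext i j
  unfold Eqn.Y
  rw [Matrix.of_apply, Matrix.mul_apply]
  have hE : ∀ c : Fin e.n, Pool.Agent.Y119.HY.E (Pool.Agent.Y119.HY.cm (Pool.Agent.Y119.HY.Am e.n))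
      (Complex.log z) c j = ∑ l ∈ Finset.range e.n,
        if (j : ℕ) = c + l then Complex.log z ^ l / (l.factorial : ℂ) else 0 := by
    intro c
    unfold Pool.Agent.Y119.HY.E
    rw [Matrix.sum_apply]
    refine Finset.sum_congr rfl fun l _ => ?_
    rw [Matrix.smul_apply, ← Pool.Agent.Y119.HY.cm_pow, Pool.Agent.Y119.HY.cm_apply, Pool.Agent.Y119.HY.Am_pow, smul_eq_mul]
    split_ifs
    · push_cast
      rw [mul_one]
    · simp
  simp only [hE, Finset.mul_sum]
  rw [Finset.sum_comm]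
  have hsub : Finset.range ((j : ℕ) + 1) ⊆ Finset.range e.n := by
    intro l hl
    rw [Finset.mem_range] at hl ⊢
    have := j.2
    omega
  refine Finset.sum_subset_zero_on_sdiff hsub (fun l hl => ?_) fun l hl => ?_
  · rw [Finset.mem_sdiff, Finset.mem_range, Finset.mem_range] at hl
    refine Finset.sum_eq_zero fun c _ => ?_
    rw [if_neg (by omega), mul_zero]
  · rw [Finset.mem_range] at hl
    have hj := j.2
    rw [Finset.sum_eq_single (⟨(j : ℕ) - l, by omega⟩ : Fin e.n)]
    · rw [if_pos (by simp only; omega), mul_comm]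
      congr 1
    · intro c _ hc
      rw [if_neg, mul_zero]
      intro h
      apply hc
      apply Fin.ext
      simp only
      omega
    · intro h
      exact absurd (Finset.mem_univ _) h

theorem point_eq {k : ℕ} {r : Fin k → ℕ} {e : ∀ i, Fin (r i) → Eqn} (l : Fin k → ℂ)
    (X : ∀ i j, Matrix (Fin (e i j).n) (Fin (e i j).n) ℂ) : point l X = pj (n := fun i j => (e i j).n) l X := by
  funext v
  obtain ⟨i, _ | ⟨j, p⟩⟩ := v
  · rfl
  · rfl

theorem quad {e : Eqn} (he : e.Admissible) : Run7.h893.HO.QG e.n e.poly := QG_QA he.1 (nonint he.2.1)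

theorem dat {r : ℕ} {e : Fin r → Eqn} {a b : Fin r → ℚ} {τ : ℤ} (he : Good e a b τ) {L : ℝ} (hL : 0 < L)
    (h : ∀ j, |((1 / a j : ℚ) : ℝ)| + |((-b j / a j - τ : ℚ) : ℝ)| ≤ L) :
    DatL (fun j => (e j).n) (fun j => (e j).poly) (fun j => ((-b j / a j - τ : ℚ) : ℝ)) (fun j => ((1 / a j : ℚ) : ℝ)) L where
  q := fun j => quad (he.1 j).1
  q' := fun j => by
    show Run7.h893.HO.QG _ (dq _ (QA (e j).α))
    rw [dq_QA]
    exact QG_QA (he.1 j).1.1 (nonint' (he.1 j).1.2.1)
  tr := fun j => (QA_coeff (by have := (he.1 j).1.1; omega) (e j).α).trans (he.1 j).1.2.2.1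
  ty := fun j => by
    rcases (he.1 j).1.2.2.2 with h | h
    · refine Or.inr fun h2 => h ?_
      have h3 : RatEq (QA (e j).α) (dq (e j).n (QA (e j).α)) := h2
      rw [dq_QA] at h3
      exact RatEq_QA h3
    · exact Or.inl (QDeven (quad (he.1 j).1) h)
  c0 := fun j => by
    have h2 : (1 / a j : ℚ) ≠ 0 := one_div_ne_zero (he.1 j).2.1
    exact_mod_cast h2
  gc := fun j => by
    have h1 := par_gc (he.1 j).2.2
    exact_mod_cast h1
  L0 := hL
  cL := h
  sep := fun i j hij hc _ => by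
    have h1 : (1 / a i + (-b i / a i - τ) : ℚ) = 1 / a j + (-b j / a j - τ) := by exact_mod_cast hc
    rw [par_s, par_s] at h1
    have h2 : (1 - b i) / a i = (1 - b j) / a j := by linarith
    obtain ⟨h3, h4⟩ := he.2 i j hij h2
    refine ⟨fun h => h3 (RatEq_QA h), fun h => h4 ?_⟩
    have h5 : RatEq (QA (e i).α) (dq (e j).n (QA (e j).α)) := h
    rw [dq_QA] at h5
    exact RatEq_QA h5

theorem G_eq {e : Eqn} (he : e.Admissible) : e.G = Gp e.n e.poly := by
  ext X
  unfold Eqn.G Gp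
  rw [J_eq]
  refine and_congr_right fun _ => ⟨fun h h2 => h ?_, fun h h2 => h ?_⟩
  · exact evenQD h2
  · exact QDeven (quad he) h2

/-- Let `e_i`, `1 ≤ i ≤ k`, be lists of hypergeometric equations `e_ij`, `ℓ_ij(t) = a_ij t + b_ij` linear polynomials and
`τ_i` integers which form good lists. Then the matrices `Y_ij(z)` are in the groups of the equations for `|z| < 1`, and for
all `δ` and `D` there are `c > 0` and `C` such that for every `ℚ`-space `V` of complex numbers of dimension `≤ D`, all complex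
matrices `Ω_ij` and every box `∏_i (x_i, x_i + N]` with `x_i ≥ 1` the following holds for all but
`C N^(k-1) ∑_i (1 + N / (x_i + N)^c)` integral points `t` of the box: `t_i > τ_i` and `|ℓ_ij(t_i)| > 1` for all `i` and `j`,
and every polynomial relation of degree `≤ δ` with coefficients in `V` between the numbers `log (t_i - τ_i)` and the entries
of the matrices `Y_ij(1 / ℓ_ij(t_i)) Ω_ij` vanishes identically on the set of the points with arbitrary coordinates in place
of the `log (t_i - τ_i)` and the matrices `X_ij Ω_ij` with `X_ij` in the group of `e_ij`. -/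
theorem result (k : ℕ) (r : Fin k → ℕ) (e : ∀ i, Fin (r i) → Eqn) (a b : ∀ i, Fin (r i) → ℚ) (τ : Fin k → ℤ)
    (he : ∀ i, Good (e i) (a i) (b i) (τ i)) :
    (∀ i j, ∀ z : ℂ, ‖z‖ < 1 → (e i j).Y z ∈ (e i j).G) ∧
    ∀ δ D : ℕ, ∃ c C : ℝ, 0 < c ∧ ∀ V : Submodule ℚ ℂ, Module.Finite ℚ V → Module.finrank ℚ V ≤ D →
      ∀ (Ω : ∀ i j, Matrix (Fin (e i j).n) (Fin (e i j).n) ℂ) (x : Fin k → ℕ) (N : ℕ), (∀ i, 1 ≤ x i) → 1 ≤ N →
      (({t : Fin k → ℕ | (∀ i, x i < t i ∧ t i ≤ x i + N) ∧ (Small a b τ t ∨ Exceptional δ V e a b τ Ω t)}.ncard : ℕ) : ℝ) ≤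
        C * (N : ℝ) ^ (k - 1) * ∑ i, (1 + N / ((x i : ℝ) + N) ^ c) := by
  classical
  -- the radius
  set L : ℕ := 1 + ∑ i, ∑ j, ⌈|(1 / a i j : ℚ)| + |(-b i j / a i j - τ i : ℚ)|⌉₊ with hLd
  have hLle : ∀ i j, |(1 / a i j : ℚ)| + |(-b i j / a i j - τ i : ℚ)| ≤ (L : ℚ) := by
    intro i j
    have h1 : ⌈|(1 / a i j : ℚ)| + |(-b i j / a i j - τ i : ℚ)|⌉₊ ≤
        ∑ j, ⌈|(1 / a i j : ℚ)| + |(-b i j / a i j - τ i : ℚ)|⌉₊ :=
      Finset.single_le_sum (f := fun j => ⌈|(1 / a i j : ℚ)| + |(-b i j / a i j - τ i : ℚ)|⌉₊)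
        (fun _ _ => Nat.zero_le _) (Finset.mem_univ j)
    have h2 : ∑ j, ⌈|(1 / a i j : ℚ)| + |(-b i j / a i j - τ i : ℚ)|⌉₊ ≤
        ∑ i, ∑ j, ⌈|(1 / a i j : ℚ)| + |(-b i j / a i j - τ i : ℚ)|⌉₊ :=
      Finset.single_le_sum (f := fun i => ∑ j, ⌈|(1 / a i j : ℚ)| + |(-b i j / a i j - τ i : ℚ)|⌉₊)
        (fun _ _ => Nat.zero_le _) (Finset.mem_univ i)
    exact (Nat.le_ceil _).trans (by exact_mod_cast (by omega : _ ≤ L))
  have hL1 : 1 ≤ L := by omega
  have hLR : (0 : ℝ) < L := by exact_mod_cast hL1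
  have hLle' : ∀ i j, |((1 / a i j : ℚ) : ℝ)| + |((-b i j / a i j - τ i : ℚ) : ℝ)| ≤ (L : ℝ) := fun i j => by
    exact_mod_cast hLle i j
  have hD := fun i => dat (he i) hLR (hLle' i)
  refine ⟨fun i j z hz => ?_, fun δ D => ?_⟩
  · rw [G_eq ((he i).1 j).1, Y_eq]
    exact Gp_mul (Hf_mem ((hD i).q j) ((hD i).tr j) hz) (Gp_E ((hD i).q j) _)
  have hW := fun i j => wex_QA (α := (e i j).α) ((he i).1 j).1.1 ((he i).1 j).1.2.1
  choose W hW1 hW2 using hW
  have hS : ∀ i j, Sys (e i j).n (Pool.Agent.Y119.HY.Am (e i j).n) (Pool.Agent.Y119.HY.Bm (e i j).n (e i j).poly)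
      (Hp (e i j).n (e i j).poly) (W i j) := by
    intro i j
    refine Fm.sys ((hD i).q j) (fun a b => ?_) (hW1 i j) (hW2 i j)
    unfold Hp
    rw [Matrix.of_apply]
    exact sdc_hps_g (Fintype.card_fin _) (nonint ((he i).1 j).1.2.1) ((hD i).q j) a b
  obtain ⟨c, C, hc, hC, hmain⟩ := tuples_cfB k δ D L r (fun i j => (e i j).n) (fun i j => (e i j).poly)
    (fun i j => -b i j / a i j - τ i) (fun i j => 1 / a i j) W hL1 hD hS
  -- all `t_i` larger than `M` are allowed
  set M : ℕ := L + 2 * ∑ i, (τ i).natAbs with hMd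
  have hMi : ∀ i, (L : ℤ) + 2 * |τ i| ≤ M := by
    intro i
    have h1 : (τ i).natAbs ≤ ∑ i, (τ i).natAbs :=
      Finset.single_le_sum (f := fun i => (τ i).natAbs) (fun _ _ => Nat.zero_le _) (Finset.mem_univ i)
    have h2 : (L : ℤ) + 2 * ((τ i).natAbs : ℤ) ≤ M := by omega
    rwa [Int.natCast_natAbs] at h2
  refine ⟨c, M + C * (2 : ℝ) ^ c, hc, ?_⟩
  intro V hVf hV Ω x N hx hN
  set S := {t : Fin k → ℕ | (∀ i, x i < t i ∧ t i ≤ x i + N) ∧ (Small a b τ t ∨ Exceptional δ V e a b τ Ω t)} with hSd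
  have hfin : S.Finite := by
    refine (Set.finite_Iic (fun i : Fin k => x i + N)).subset ?_
    intro t ht i
    exact (ht.1 i).2
  rw [Set.ncard_eq_toFinset_card S hfin]
  set S1 := hfin.toFinset.filter fun t => ∃ i, t i ≤ M with hS1
  set S2 := hfin.toFinset.filter fun t => ¬ ∃ i, t i ≤ M with hS2
  have hcard : hfin.toFinset.card = S1.card + S2.card := (Finset.card_filter_add_card_filter_not _).symm
  -- the small points
  have hc1 : (S1.card : ℝ) ≤ M * (N : ℝ) ^ (k - 1) * ∑ i, (1 + (N : ℝ) / ((x i : ℝ) + N) ^ c) := by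
    have h1 := small_card x N M S1 fun t ht => by
      rw [hS1, Finset.mem_filter] at ht
      exact ⟨(hfin.mem_toFinset.1 ht.1).1, ht.2⟩
    have h2 : (S1.card : ℝ) ≤ k * (M * (N : ℝ) ^ (k - 1)) := by exact_mod_cast h1
    have h3 := bound_le (k := k) (x := x) (N := N) (c := c)
    calc (S1.card : ℝ) ≤ k * (M * (N : ℝ) ^ (k - 1)) := h2
      _ ≤ (∑ i, (1 + (N : ℝ) / ((x i : ℝ) + N) ^ c)) * (M * (N : ℝ) ^ (k - 1)) :=
        mul_le_mul_of_nonneg_right h3 (by positivity)
      _ = _ := by ring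
  -- the shifted points
  set f : (Fin k → ℕ) → (Fin k → ℕ) := fun t i => ((t i : ℤ) - τ i).toNat with hf
  have hτ : ∀ i, |τ i| ≤ |τ i| ∧ τ i ≤ |τ i| ∧ -|τ i| ≤ τ i := fun i => ⟨le_rfl, le_abs_self _, neg_abs_le _⟩
  have hft : ∀ t : Fin k → ℕ, (∀ i, M < t i) → ∀ i, ((t i : ℤ)) = (f t i : ℤ) + τ i := by
    intro t ht i
    rw [hf]
    simp only
    have h1 := hMi i
    have h2 := hτ i
    have h3 : (M : ℤ) < t i := by exact_mod_cast ht i
    rw [Int.toNat_of_nonneg (by omega)]
    ring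
  have hS2t : ∀ t ∈ S2, (∀ i, M < t i) ∧ (∀ i, x i < t i ∧ t i ≤ x i + N) ∧ (Small a b τ t ∨ Exceptional δ V e a b τ Ω t) := by
    intro t ht
    rw [hS2, Finset.mem_filter] at ht
    push Not at ht
    exact ⟨ht.2, (hfin.mem_toFinset.1 ht.1)⟩
  set x' : Fin k → ℕ := fun i => ((max (x i) M : ℕ) - τ i : ℤ).toNat with hx'
  have hx'e : ∀ i, (x' i : ℤ) = (max (x i) M : ℕ) - τ i := by
    intro i
    rw [hx']
    simp only
    have h1 := hMi i
    have h2 := hτ i
    have h3 : M ≤ max (x i) M := le_max_right _ _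
    rw [Int.toNat_of_nonneg (by omega)]
  have hinj : Set.InjOn f (S2 : Set (Fin k → ℕ)) := by
    intro t ht t' ht' h0
    funext i
    have h1 := hft t (hS2t t ht).1 i
    have h2 := hft t' (hS2t t' ht').1 i
    rw [h0] at h1
    omega
  set κ : ∀ i j, Matrix (Fin (e i j).n) (Fin (e i j).n) ℂ := fun i j =>
    Pool.Agent.Y119.HY.E (Pool.Agent.Y119.HY.cm (Pool.Agent.Y119.HY.Am (e i j).n)) (Complex.log ((1 / a i j : ℚ) : ℂ))
    with hκ
  have hc2' : ((S2.image f).card : ℝ) ≤ C * (N : ℝ) ^ (k - 1) * ∑ i, (1 + (N : ℝ) / ((x' i : ℝ) + N) ^ c) := by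
    refine hmain V hV (fun i j => κ i j * Ω i j) x' N (fun i => ?_) hN _ fun s hs => ?_
    · have h1 := hMi i
      have h2 := hτ i
      have h3 : M ≤ max (x i) M := le_max_right _ _
      have h4 := hx'e i
      omega
    rw [Finset.mem_image] at hs
    obtain ⟨t, ht, rfl⟩ := hs
    obtain ⟨htM, hbox, hex⟩ := hS2t t ht
    have hfL : ∀ i, L < f t i := by
      intro i
      have h1 := hMi i
      have h2 := hτ i
      have h3 : (M : ℤ) < t i := by exact_mod_cast htM i
      have h4 := hft t htM i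
      omega
    have hfq : ∀ i j, |(1 / a i j : ℚ)| + |(-b i j / a i j - τ i : ℚ)| < (f t i : ℚ) := fun i j =>
      lt_of_le_of_lt (hLle i j) (by exact_mod_cast hfL i)
    have hsm : ¬ Small a b τ t := by
      rintro ⟨i, h1 | ⟨j, h1⟩⟩
      · have h4 := hft t htM i
        have h5 := hfL i
        omega
      · exact absurd h1 (not_le.2 (big_abs ((he i).1 j).2.1 (hft t htM i) (hfq i j)))
    obtain ⟨P, h1, h2, h3, l, g, hg, h4⟩ := hex.resolve_left hsm
    refine ⟨fun i => ?_, P, h1, h2, ?_, l, fun i j => g i j *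
      Pool.Agent.Y119.HY.E (Pool.Agent.Y119.HY.cm (Pool.Agent.Y119.HY.Am (e i j).n)) (-Complex.log ((1 / a i j : ℚ) : ℂ)),
      fun i j => Gp_mul (by rw [← G_eq ((he i).1 j).1]; exact hg i j) (Gp_E ((hD i).q j) _), ?_⟩
    · have h5 := hft t htM i
      have h6 := hx'e i
      have h7 := hbox i
      have h8 := htM i
      have h9 : x i ≤ max (x i) M := le_max_left _ _
      rcases max_choice (x i) M with h10 | h10 <;> omega
    · rw [point_eq] at h3
      have hlog : (fun i => ((Real.log ((t i : ℝ) - (τ i : ℝ)) : ℝ) : ℂ)) = fun i => ((Real.log (f t i) : ℝ) : ℂ) := by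
        funext i
        have h5 : (t i : ℝ) - (τ i : ℝ) = (f t i : ℝ) := by
          have h6 : (t i : ℝ) = (f t i : ℝ) + (τ i : ℝ) := by exact_mod_cast hft t htM i
          rw [h6]
          ring
        rw [h5]
      rw [hlog] at h3
      refine (congrArg (fun Z => MvPolynomial.aeval (pj (n := fun i j => (e i j).n)
        (fun i => ((Real.log (f t i) : ℝ) : ℂ)) Z) P = 0) ?_).mp h3
      funext i j
      rw [Y_eq, Y_lin ((he i).1 j).2.1 (hft t htM i) (hfq i j), hκ]
      simp only [Matrix.mul_assoc]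
    · rw [point_eq] at h4
      refine fun h0 => h4 ((congrArg (fun Z => MvPolynomial.aeval (pj (n := fun i j => (e i j).n) l Z) P = 0) ?_).mp h0)
      funext i j
      have h7 : Pool.Agent.Y119.HY.E (Pool.Agent.Y119.HY.cm (Pool.Agent.Y119.HY.Am (e i j).n))
          (-Complex.log ((1 / a i j : ℚ) : ℂ)) * κ i j = 1 := by
        have h8 := Pool.Agent.Y119.HY.E_mul_neg (Pool.Agent.Y119.HY.Ac_nil (n := (e i j).n))
          (-Complex.log ((1 / a i j : ℚ) : ℂ))
        rwa [neg_neg] at h8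
      rw [Matrix.mul_assoc (g i j), ← Matrix.mul_assoc _ (κ i j), h7, one_mul]
  rw [Finset.card_image_of_injOn hinj] at hc2'
  have hcmp := bound_cmp (x := x) (x' := x') hc hN fun i => by
    have h1 := hMi i
    have h2 := hτ i
    have h3 : M ≤ max (x i) M := le_max_right _ _
    have h4 := hx'e i
    have h5 : x i ≤ max (x i) M := le_max_left _ _
    have h6 : (x i : ℤ) + N ≤ 2 * ((x' i : ℤ) + N) := by omega
    have h7 : (x i : ℝ) + N ≤ 2 * ((x' i : ℝ) + N) := by exact_mod_cast h6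
    linarith
  have hc2 : (S2.card : ℝ) ≤ (C * (2 : ℝ) ^ c) * (N : ℝ) ^ (k - 1) * ∑ i, (1 + (N : ℝ) / ((x i : ℝ) + N) ^ c) := by
    calc (S2.card : ℝ) ≤ C * (N : ℝ) ^ (k - 1) * ∑ i, (1 + (N : ℝ) / ((x' i : ℝ) + N) ^ c) := hc2'
      _ ≤ C * (N : ℝ) ^ (k - 1) * ((2 : ℝ) ^ c * ∑ i, (1 + (N : ℝ) / ((x i : ℝ) + N) ^ c)) :=
        mul_le_mul_of_nonneg_left hcmp (by positivity)
      _ = _ := by ring
  rw [hcard]
  push_cast
  calc (S1.card : ℝ) + S2.card ≤ M * (N : ℝ) ^ (k - 1) * ∑ i, (1 + (N : ℝ) / ((x i : ℝ) + N) ^ c) +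
        (C * (2 : ℝ) ^ c) * (N : ℝ) ^ (k - 1) * ∑ i, (1 + (N : ℝ) / ((x i : ℝ) + N) ^ c) := add_le_add hc1 hc2
    _ = _ := by ring

end Pool.Agent.Results.MP_77d3f5_ag.CorrelatedFibresInBoxes
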