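import Pool.Agent.Run7.h659.VA8

/-!
# The period torsors of the cyclic covers `y ^ N = ∏ (x - a_i) (x - z)` at the points `z = 1 / t`

Let `a_0 < … < a_(n-1)`, `n ≥ 2`, be nonzero real algebraic numbers and let `C_z` be the curve `y ^ N = f(x) (x - z)`,
`f = ∏ (x - a_i)`, a family over the `z`-line. Let `e_0 < … < e_n` be the real numbers `a_i` and `z`, in increasing
order. For `ρ = k / N` the integrals of `x ^ j dx / |y| ^ k = x ^ j ∏ |x - e_i| ^ (- ρ) dx`, `0 ≤ j < n`, from `e_l` to
`e_(l+1)`, `0 ≤ l < n`, form an `n × n` matrix `P_ρ`; if `(n + 1) ρ` is not an integer, they are up to factors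
(roots of unity minus one) the periods of the part of `H¹(C_z)` with the corresponding character. The parts for `1 - ρ`
are dual to the parts for `ρ`; we take `ρ < 1 / 2`, and denominators different from `4`, `6` and `10` (for instance
`N` odd and prime to `n + 1`, and all the characters).

The motivic Galois group of `H¹(C_z)` acts on `P_ρ` through `GL_n`. The theorem says: the relations between the periods
of bounded degree and with arbitrary coefficients in a number field are those of the determinants (the numbers `det P_ρ`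
are algebraic multiples of products of values of the Gamma function at rational points): in all windows `[N, N + N ^ c]`
all integers `t` but at most `M` have the following property: if a polynomial of degree at most `δ` over `K` vanishes at
the matrices `P_ρ(1 / t)`, `ρ ∈ E` (and at arbitrary fixed complex numbers `ξ_i`), it vanishes at all systems of matrices
`X_ρ` with `det X_ρ = det P_ρ(1 / t)`, `ρ ∈ E`.

The proof: the monodromy of the family (generated by complex reflections, the moving point turning around the points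
`a_i`; the sum of the local systems for all `ρ ∈ E`) is Zariski dense in the product of the groups `SL_n`, up to its
centre (conjugates of the local systems, hyperbolic elements, and a transport of the Lie algebras by half-twists along the
chain of the intervals); the integrals satisfy a Jordan-Pochhammer equation, which is a G-function system at `0`; and the
theorem on the values of G-functions of the starting library gives functional relations.
-/

set_option autoImplicit false

open Pool.Agent.Run7.h659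

namespace Pool.Agent.Results.MP_77d3f5_ag.CyclicCoverWindows

variable {n : ℕ}

/-- the branch points: the numbers `a i` and, at the place `m`, the number `z` -/
noncomputable def branch (a : Fin n → ℝ) (m : Fin (n + 1)) (z : ℝ) : Fin (n + 1) → ℝ :=
  Fin.insertNth (α := fun _ => ℝ) m z a

/-- the matrix `P_ρ` of the integrals of `x ^ j dx / ∏ |x - e_i| ^ ρ` from `e_l` to `e_(l+1)`, `0 ≤ l, j < n` -/
noncomputable def periods (ρ : ℚ) (e : Fin (n + 1) → ℝ) : Matrix (Fin n) (Fin n) ℝ :=
  Matrix.of fun l j => ∫ x in (e l.castSucc)..(e l.succ), x ^ (j : ℕ) / ∏ i, |x - e i| ^ (ρ : ℝ)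

/-- the characters: rational numbers `ρ` in `(0, 1 / 2)` with denominator different from `4`, `6`, `10`, such that
`(n + 1) ρ` is not an integer -/
def Admissible (n : ℕ) (ρ : ℚ) : Prop :=
  0 < ρ ∧ ρ < 1 / 2 ∧ ρ.den ≠ 4 ∧ ρ.den ≠ 6 ∧ ρ.den ≠ 10 ∧ ∀ b : ℤ, ((n : ℚ) + 1) * ρ ≠ b

/-- the value of the polynomial `F` at the numbers `ξ i` and at the entries of the matrices `X ρ` -/
noncomputable def value {K : Type} [Field K] [Algebra K ℂ] {s : ℕ} {E : Finset ℚ}
    (F : MvPolynomial (Fin s ⊕ E × Fin n × Fin n) K) (ξ : Fin s → ℂ) (X : E → Matrix (Fin n) (Fin n) ℂ) : ℂ :=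
  MvPolynomial.aeval (Sum.elim ξ fun v => X v.1 v.2.1 v.2.2) F

/-- the period conjecture in degree `δ` over `K`, relative to the numbers `ξ i`, up to determinants: every polynomial of
total degree at most `δ` over `K` which vanishes at the numbers `ξ i` and at the entries of the matrices `P ρ` vanishes
for all matrices `X ρ` with the determinants of the `P ρ` -/
def DegreeGPC (K : Type) [Field K] [Algebra K ℂ] {s : ℕ} (ξ : Fin s → ℂ) (δ : ℕ) {E : Finset ℚ}
    (P : E → Matrix (Fin n) (Fin n) ℂ) : Prop :=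
  ∀ F : MvPolynomial (Fin s ⊕ E × Fin n × Fin n) K, F.totalDegree ≤ δ → value F ξ P = 0 →
    ∀ X : E → Matrix (Fin n) (Fin n) ℂ, (∀ ρ, (X ρ).det = (P ρ).det) → value F ξ X = 0

theorem inGap_of {n : ℕ} {a : Fin n → ℝ} {m : Fin (n + 1)} {z : ℝ} (h : StrictMono (branch a m z)) :
    Pool.Agent.Y118.HP.InGap a m z := by
  have hm : branch a m z m = z := Fin.insertNth_apply_same (α := fun _ => ℝ) m z a
  have hi : ∀ i, branch a m z (m.succAbove i) = a i := fun i =>
    Fin.insertNth_apply_succAbove (α := fun _ => ℝ) m z a i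
  intro i
  constructor
  · intro h1
    have h2 := h ((Fin.succAbove_lt_iff_castSucc_lt m i).2 h1)
    rwa [hm, hi] at h2
  · intro h1
    have h2 := h ((Fin.lt_succAbove_iff_le_castSucc m i).2 h1)
    rwa [hm, hi] at h2

/-- Let `n ≥ 2`, let `a_0 < … < a_(n-1)` be nonzero real algebraic numbers, `m` the place of `0` between them, `E` a finite
set of characters, `K` a number field, `ξ_1, …, ξ_s` complex numbers and `δ` a degree. In each window `[N, N + N ^ c]` all
integers `t` but at most `M` have the following property: the period conjecture in degree `δ` over `K`, relative to the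
`ξ_i`, up to determinants holds for the matrices `P_ρ`, `ρ ∈ E`, with branch points `a_i` and `1 / t`. -/
theorem result (hn : 2 ≤ n) (a : Fin n → ℝ) (ha : StrictMono a) (halg : ∀ i, IsAlgebraic ℚ (a i)) (m : Fin (n + 1))
    (h0 : StrictMono (branch a m 0)) (E : Finset ℚ) (hE : ∀ ρ ∈ E, Admissible n ρ) (K : Type) [Field K]
    [NumberField K] [Algebra K ℂ] {s : ℕ} (ξ : Fin s → ℂ) (δ : ℕ) :
    ∃ c : ℝ, 0 < c ∧ ∃ M : ℕ, ∀ N : ℕ, 1 ≤ N → ∃ S : Finset ℕ, S.card ≤ M ∧
      ∀ t : ℕ, N ≤ t → (t : ℝ) ≤ N + (N : ℝ) ^ c → t ∉ S →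
        StrictMono (branch a m (1 / (t : ℝ))) ∧
        (∀ ρ : E, (periods ρ (branch a m (1 / (t : ℝ)))).det ≠ 0) ∧
        DegreeGPC K ξ δ (E := E) fun ρ => (periods ρ (branch a m (1 / (t : ℝ)))).map Complex.ofRealHom := by
  obtain ⟨n, rfl⟩ := Nat.exists_eq_add_of_le' hn
  let G : VA.Cfam :=
    { n := n, a := a, k := E.card, ρ := fun i => ((E.equivFin.symm i : E) : ℚ), m := m, ha := ha, alg := halg
      gap := inGap_of h0
      adm := by
        refine ⟨fun i j hij => E.equivFin.symm.injective (Subtype.ext hij), fun i => ?_, fun i => ?_, fun i => ?_,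
          fun i b => ?_⟩
        · exact (hE _ (E.equivFin.symm i).2).1
        · exact (hE _ (E.equivFin.symm i).2).2.1
        · exact ⟨(hE _ (E.equivFin.symm i).2).2.2.1, (hE _ (E.equivFin.symm i).2).2.2.2.1,
            (hE _ (E.equivFin.symm i).2).2.2.2.2.1⟩
        · exact (hE _ (E.equivFin.symm i).2).2.2.2.2.2 b }
  obtain ⟨r, hr, hball, c, hc, M, hM⟩ := VA.one_win K (fun _ : Fin 1 => G) ξ δ
  refine ⟨c, hc, M, fun N hN => ?_⟩
  obtain ⟨S, hS, hS'⟩ := hM N hN
  refine ⟨S, hS, fun t h1 h2 h3 => ?_⟩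
  obtain ⟨h4, h5⟩ := hS' t h1 h2 h3
  have hgap : Pool.Agent.Y118.HP.InGap a m (1 / (t : ℝ)) := VA.gap_of_ball (hball 0) h4
  have hmono : StrictMono (branch a m (1 / (t : ℝ))) := SE.strictMono_ins ha hgap
  have hdet : ∀ ρ : E, (periods ρ (branch a m (1 / (t : ℝ)))).det ≠ 0 := fun ρ => by
    have h6 : (ρ : ℚ) < 1 := by
      have := (hE ρ ρ.2).2.1
      linarith
    exact VA.det_Rp hmono h6
  refine ⟨hmono, hdet, ?_⟩
  intro F hF hF0 X hX
  -- the matrices
  have hPF : ∀ ρ : E, VA.PF G.ρ G.a G.m (1 / (t : ℂ)) (E.equivFin ρ) =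
      (periods ρ (branch a m (1 / (t : ℝ)))).map Complex.ofRealHom := by
    intro ρ
    have h6 := VA.PF_real G.ρ ha hgap (E.equivFin ρ)
    have h7 : ((1 / (t : ℝ) : ℝ) : ℂ) = 1 / (t : ℂ) := by push_cast; rfl
    rw [h7] at h6
    refine h6.trans ?_
    have h8 : G.ρ (E.equivFin ρ) = (ρ : ℚ) := by
      show ((E.equivFin.symm (E.equivFin ρ) : E) : ℚ) = ρ
      rw [Equiv.symm_apply_apply]
    rw [h8]
    rfl
  set f : Fin s ⊕ E × Fin (n + 2) × Fin (n + 2) → VA.Vx (fun _ : Fin 1 => G) s :=
    Sum.map id (fun v => ⟨0, E.equivFin v.1, v.2⟩) with hf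
  have hval : ∀ Y : VA.MM (fun _ : Fin 1 => G) ℂ, MvPolynomial.aeval (VA.cv (fun _ : Fin 1 => G) ξ Y)
      (MvPolynomial.rename f F) = value F ξ (fun ρ => Y 0 (E.equivFin ρ)) := by
    intro Y
    rw [MvPolynomial.aeval_rename]
    unfold value
    congr 2
    funext v
    rcases v with v | v
    · rfl
    · rfl
  have hv0 : MvPolynomial.aeval (VA.cv (fun _ : Fin 1 => G) ξ (VA.QQ (fun _ : Fin 1 => G) fun _ => 1 / (t : ℂ)))
      (MvPolynomial.rename f F) = 0 := by
    rw [hval, ← hF0]
    congr 1
    funext ρ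
    exact hPF ρ
  set Q : E → Matrix (Fin (n + 2)) (Fin (n + 2)) ℂ := fun ρ =>
    (periods ρ (branch a m (1 / (t : ℝ)))).map Complex.ofRealHom with hQ
  have hQdet : ∀ ρ, (Q ρ).det ≠ 0 := by
    intro ρ
    have h6 : (Q ρ).det = Complex.ofRealHom (periods ρ (branch a m (1 / (t : ℝ)))).det :=
      (RingHom.map_det Complex.ofRealHom _).symm
    rw [h6]
    exact (map_ne_zero _).2 (hdet ρ)
  have key := h5 (MvPolynomial.rename f F) ((MvPolynomial.totalDegree_rename_le _ _).trans hF) hv0
    (fun _ i => X (E.equivFin.symm i) * (Q (E.equivFin.symm i))⁻¹) (by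
      intro l i
      rw [Matrix.det_mul, Matrix.det_nonsing_inv, hX, Ring.inverse_eq_inv']
      exact mul_inv_cancel₀ (hQdet _))
  rw [hval] at key
  rw [← key]
  congr 1
  funext ρ
  rw [Pi.mul_apply]
  have h6 : VA.QQ (fun _ : Fin 1 => G) (fun _ => 1 / (t : ℂ)) 0 (E.equivFin ρ) = Q ρ := hPF ρ
  rw [h6, Equiv.symm_apply_apply, mul_assoc, Matrix.nonsing_inv_mul _ (hQdet ρ).isUnit, mul_one]

end Pool.Agent.Results.MP_77d3f5_ag.CyclicCoverWindows
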