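import Pool.Agent.Run7.h225.HG.JD

/-!
# The Grothendieck period conjecture for products of hypergeometric motives at almost all algebraic points

Let `α_1, …, α_n` be rational numbers which are not integers, `n ≥ 2`, `θ = z d/dz` and `Q(x) = ∏_j (x + α_j)`. We consider
the hypergeometric operators `θ^n - z Q(θ)`, with maximally unipotent monodromy at `z = 0`, the exponents `α_j` at infinity and
a pseudoreflection at `z = 1` of determinant `exp(2πi s)`, `s = ∑_j α_j`. Up to rational gauge transformations the equation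
depends only on the `α_j` modulo `ℤ`; we normalise them such that `s = 0` if `s` is an integer, `Q(-x) = Q(x)` if the equation
is self-dual and `n` is even, and `Q(-1-x) = -Q(x)` if it is self-dual and `n` is odd. The period matrices of the
corresponding families of motives at `z` near `0` are `A(z) Y(z) Ω` with the matrix `Y` of the derivatives of the Frobenius
solutions, `A` over a number field `(z)` and `Ω` constant (the periods of the limit). We take a finite list of such
equations, with exponents at infinity which are pairwise different modulo `ℤ` and different from those of the dual equations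
(and not both an equation of order `2` with a reflection of order two at `1` and a self-dual one of order `3`, see Clausen's
formula), so the direct sum of the motives at the same point `z`. The Zariski closure of the graph of the joint period
matrix has the fibre `T(z)` (one component): all tuples `(X_j)` with `det X_j = (1 - z)^(-s_j)` and the bilinear relations in
the self-dual cases. We prove for almost all tuples of points `z = 1 / ξ`, where the `ξ` are algebraic integers of bounded
degree, that all relations of bounded degree with coefficients in number fields of bounded degree times an arbitrary finite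
dimensional space of constants hold on the torsors. The proportion of the exceptional tuples is a negative power of the bound
for the conjugates if the parameters are fixed. In particular, all parameters (the degree of the relations, the degrees of the
number fields, the dimension of the space of constants, the number and the degree of the points, the number, the orders and
the exponents of the equations) may grow with the bound for the conjugates.
-/

set_option autoImplicit false

open PowerSeries Pool.Agent.Y119.HZ Pool.Agent.Run7.h225.HG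

namespace Pool.Agent.Results.MP_77d3f5_ag.HypergeometricAlmostAll

/-- A hypergeometric equation `θ^n f = z ∏_j (θ + α_j) f`. -/
structure Eqn where
  n : ℕ
  α : Fin n → ℚ

/-- the dual equation (the exponents at infinity are `-α_j`) -/
def Eqn.dual (e : Eqn) : Eqn := ⟨e.n, fun j => -e.α j⟩

/-- the multiset of the fractional parts of the `α_j` -/
def Eqn.frac (e : Eqn) : Multiset ℚ := Multiset.map (fun j => Int.fract (e.α j)) Finset.univ.val

/-- the polynomial `Q = ∏_j (x + α_j)` -/
noncomputable def Eqn.poly (e : Eqn) : Polynomial ℚ := ∏ j, (Polynomial.X + Polynomial.C (e.α j))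

/-- `Q(-x) = Q(x)` -/
def Eqn.Symplectic (e : Eqn) : Prop := e.poly.comp (-Polynomial.X) = e.poly

/-- `Q(-1-x) = -Q(x)` -/
def Eqn.Orthogonal (e : Eqn) : Prop := e.poly.comp (-(Polynomial.X + 1)) = -e.poly

/-- The order is at least two, the exponents at infinity are not integers, their sum is `0` or not an integer, and either the
fractional parts of the `α_j` and of the `-α_j` are different multisets or `Q(-x) = Q(x)` or `Q(-1-x) = -Q(x)`. -/
def Eqn.Admissible (e : Eqn) : Prop :=
  2 ≤ e.n ∧ (∀ j, ∀ a : ℤ, e.α j ≠ a) ∧ (∑ j, e.α j = 0 ∨ ∀ a : ℤ, ∑ j, e.α j ≠ a) ∧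
  (e.frac ≠ e.dual.frac ∨ e.Symplectic ∨ e.Orthogonal)

/-- The equations of a list are admissible, the exponents at infinity of different equations of the list, and of one of
them and of the dual of another one, are different modulo `ℤ`, and the list does not contain both an equation of order two
such that `s = ∑_j α_j ≠ 0` and `2 s` is an integer and an equation of order three with `Q(-1-x) = -Q(x)`. -/
def Good {r : ℕ} (e : Fin r → Eqn) : Prop :=
  (∀ j, (e j).Admissible) ∧ (∀ i j, i ≠ j → (e i).frac ≠ (e j).frac ∧ (e i).frac ≠ (e j).dual.frac) ∧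
  ∀ i j, (e i).n = 2 → (∃ a : ℤ, 2 * ∑ l, (e i).α l = a) → ∑ l, (e i).α l ≠ 0 → (e j).n = 3 → ¬ (e j).Orthogonal

/-- the power series `k + ε` in the variable `ε` -/
noncomputable def shift (k : ℕ) : PowerSeries ℚ := C (k : ℚ) + X

/-- `a_k(ε) = ∏_{l < k} Q(l + ε) / (l + 1 + ε)^n`. The series `∑_k a_k(ε) z^(k + ε)` solves the equation
`(θ^n - z Q(θ)) f = ε^n z^ε`, hence its coefficients `f_j` at `ε^j` with `j < n` are solutions of the homogeneous
equation. -/
noncomputable def Eqn.frob (e : Eqn) (k : ℕ) : PowerSeries ℚ :=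
  ∏ l ∈ Finset.range k, (Polynomial.aeval (shift l) e.poly * ((shift (l + 1))⁻¹) ^ e.n)

/-- The matrix with the entries `(θ^i f_j)(z)` at `z = 1 / ξ`, where `f_j(z)` is the coefficient of `ε^j` in the series
`∑_k a_k(ε) z^(k + ε)`, `z^ε = ∑_a (log z)^a ε^a / a!`, with the value `-l` of `log z`, where `exp l = ξ`. -/
noncomputable def Eqn.Y (e : Eqn) (ξ l : ℂ) : Matrix (Fin e.n) (Fin e.n) ℂ :=
  Matrix.of fun i j => ∑ a ∈ Finset.range ((j : ℕ) + 1), (-l) ^ a / (a.factorial : ℂ) *
    ∑' k : ℕ, ((coeff ((j : ℕ) - a) (shift k ^ (i : ℕ) * e.frob k) : ℚ) : ℂ) * (1 / ξ) ^ k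

/-- The matrix of the alternating form: the entry `(i, j)` is `(-1)^i q_{i+j+1-n}` for `i + j + 1 ≥ n` and `0`
otherwise, where `q_l` are the coefficients of `Q`. -/
noncomputable def Eqn.J (e : Eqn) : Matrix (Fin e.n) (Fin e.n) ℂ :=
  Matrix.of fun i j => if e.n ≤ (i : ℕ) + j + 1 then (((-1) ^ (i : ℕ) * e.poly.coeff (i + j + 1 - e.n) : ℚ) : ℂ) else 0

/-- the polynomial `(Q(x) + Q(y)) / (x + y + 1)`, a polynomial in `y` with coefficients in `ℚ[x]` -/
noncomputable def lagrange (Q : Polynomial ℚ) : Polynomial (Polynomial ℚ) :=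
  (Polynomial.C Q + Q.map Polynomial.C) /ₘ (Polynomial.X + Polynomial.C (Polynomial.X + 1))

/-- The matrix of the symmetric form on the fibre at `z`: the entry `(i, j)` is the coefficient of `x^i y^j` in
`(x^n + y^n) / (x + y) - z (Q(x) + Q(y)) / (x + y + 1)`. -/
noncomputable def Eqn.B (e : Eqn) (z : ℂ) : Matrix (Fin e.n) (Fin e.n) ℂ :=
  Matrix.of fun i j => (if (i : ℕ) + j + 1 = e.n then (-1) ^ (i : ℕ) else 0) -
    z * ((((lagrange e.poly).coeff j).coeff i : ℚ) : ℂ)

/-- The torsor of the equation at `z`: the matrices `X` with `det X = (1 - z)^(-s)` (principal branch), `s = ∑_j α_j`, and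
`Xᵀ J X = J` if `Q(-x) = Q(x)`, and `Xᵀ B(z) X = B(0)` if `Q(-1-x) = -Q(x)`. -/
def Eqn.T (e : Eqn) (z : ℂ) : Set (Matrix (Fin e.n) (Fin e.n) ℂ) :=
  {X | X.det = Complex.exp (-((∑ j, e.α j : ℚ) : ℂ) * Complex.log (1 - z)) ∧
    (e.Symplectic → X.transpose * e.J * X = e.J) ∧ (e.Orthogonal → X.transpose * e.B z * X = e.B 0)}

/-- the coordinates of `k` numbers and `k` lists of matrices -/
abbrev Coord {r : ℕ} (e : Fin r → Eqn) (k : ℕ) : Type := Σ _ : Fin k, Option (Σ j : Fin r, Fin (e j).n × Fin (e j).n)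

/-- the point with the coordinates `l_i` and the entries of the matrices `X_ij` -/
def point {r k : ℕ} {e : Fin r → Eqn} (l : Fin k → ℂ) (X : Fin k → ∀ j, Matrix (Fin (e j).n) (Fin (e j).n) ℂ) :
    Coord e k → ℂ
  | ⟨i, none⟩ => l i
  | ⟨i, some ⟨j, p⟩⟩ => X i j p.1 p.2

/-- `ξ` is an algebraic integer of degree at most `g` all of whose conjugates have absolute value at most `T` -/
def House (g T : ℕ) (ξ : ℂ) : Prop :=
  IsIntegral ℤ ξ ∧ (minpoly ℚ ξ).natDegree ≤ g ∧ ∀ z : ℂ, Polynomial.aeval z (minpoly ℚ ξ) = 0 → ‖z‖ ≤ T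

/-- There are values `l_i` of the logarithms of the `ξ_i`, a number field `L` of degree `≤ d` and a polynomial relation of
degree `≤ δ` with coefficients in `L V` between the numbers `l_i` and the entries of the matrices `Y_j(1 / ξ_i) Ω_ij` which
does not vanish identically on the set of the points with arbitrary coordinates `l'_i` and the entries of `X_ij Ω_ij` with
`X_ij ∈ T_j(1 / ξ_i)`. -/
def Exceptional {r k : ℕ} (δ d : ℕ) (V : Submodule ℚ ℂ) (e : Fin r → Eqn)
    (Ω : Fin k → ∀ j, Matrix (Fin (e j).n) (Fin (e j).n) ℂ) (ξ : Fin k → ℂ) : Prop :=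
  ∃ l : Fin k → ℂ, (∀ i, Complex.exp (l i) = ξ i) ∧
    ∃ L : IntermediateField ℚ ℂ, FiniteDimensional ℚ L ∧ Module.finrank ℚ L ≤ d ∧
    ∃ P : MvPolynomial (Coord e k) ℂ, P.totalDegree ≤ δ ∧ (∀ s, P.coeff s ∈ Submodule.span L (V : Set ℂ)) ∧
      MvPolynomial.aeval (point l fun i j => (e j).Y (ξ i) (l i) * Ω i j) P = 0 ∧
      ∃ (l' : Fin k → ℂ) (X : Fin k → ∀ j, Matrix (Fin (e j).n) (Fin (e j).n) ℂ),
        (∀ i j, X i j ∈ (e j).T (1 / ξ i)) ∧ MvPolynomial.aeval (point l' fun i j => X i j * Ω i j) P ≠ 0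

/-- the order of the equation and the numerators and the denominators of its exponents are at most `B` -/
def Eqn.Size (e : Eqn) (B : ℕ) : Prop := e.n ≤ B ∧ ∀ j, |(e.α j).num| ≤ B ∧ (e.α j).den ≤ B

/-- For every `ℚ`-space `V` of complex numbers of dimension `≤ D` and all complex matrices `Ω_ij` the number of exceptional
`k`-tuples (for relations of degree `≤ δ` and number fields of degree `≤ d`) of algebraic integers of degree `≤ g` with
conjugates of size `≤ T` is at most `ε N^k`, where `N` is the number of all these algebraic integers. -/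
def Bound {r : ℕ} (k g d δ D : ℕ) (e : Fin r → Eqn) (T : ℕ) (ε : ℝ) : Prop :=
  ∀ V : Submodule ℚ ℂ, Module.Finite ℚ V → Module.finrank ℚ V ≤ D →
    ∀ Ω : Fin k → ∀ j, Matrix (Fin (e j).n) (Fin (e j).n) ℂ,
    {ξ : Fin k → ℂ | (∀ i, House g T (ξ i)) ∧ Exceptional δ d V e Ω ξ}.Finite ∧
    (({ξ : Fin k → ℂ | (∀ i, House g T (ξ i)) ∧ Exceptional δ d V e Ω ξ}.ncard : ℕ) : ℝ) ≤
      ε * (({ξ : ℂ | House g T ξ}.ncard : ℕ) : ℝ) ^ k

theorem frob_eq (e : Eqn) (k : ℕ) : e.frob k = Pool.Agent.Y119.HY.aq e.n e.poly k := rfl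

theorem J_eq (e : Eqn) : e.J = Pool.Agent.Y119.HY.cm (Pool.Agent.Y119.HY.Jm e.n e.poly) := by
  ext i j
  rw [Pool.Agent.Y119.HY.cm_apply]
  unfold Eqn.J Pool.Agent.Y119.HY.Jm
  rw [Matrix.of_apply, Matrix.of_apply]
  split_ifs
  · rfl
  · simp

theorem B_eq (e : Eqn) (z : ℂ) : e.B z = Run7.h893.HO.Bz (Pool.Agent.Y119.HY.cm (Run7.h893.HO.J0m e.n))
    (Pool.Agent.Y119.HY.cm (Run7.h893.HO.J1m e.n e.poly)) z := by
  ext i j
  unfold Eqn.B Run7.h893.HO.Bz
  rw [Matrix.of_apply, Matrix.sub_apply, Matrix.smul_apply, Pool.Agent.Y119.HY.cm_apply, Pool.Agent.Y119.HY.cm_apply,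
    smul_eq_mul]
  congr 1
  unfold Run7.h893.HO.J0m
  rw [Matrix.of_apply]
  split_ifs
  · push_cast
    rfl
  · rw [Rat.cast_zero]

theorem Y_eq (e : Eqn) (ξ l : ℂ) : e.Y ξ l = Pool.Agent.Y119.HY.Hf (Pool.Agent.Y119.HY.Hc e.n e.poly) (1 / ξ) *
    Pool.Agent.Y119.HY.E (Pool.Agent.Y119.HY.cm (Pool.Agent.Y119.HY.Am e.n)) (-l) := by
  ext i j
  unfold Eqn.Y
  rw [Matrix.of_apply, Matrix.mul_apply]
  have hE : ∀ c : Fin e.n, Pool.Agent.Y119.HY.E (Pool.Agent.Y119.HY.cm (Pool.Agent.Y119.HY.Am e.n))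
      (-l) c j = ∑ a ∈ Finset.range e.n, if (j : ℕ) = c + a then (-l) ^ a / (a.factorial : ℂ) else 0 := by
    intro c
    unfold Pool.Agent.Y119.HY.E
    rw [Matrix.sum_apply]
    refine Finset.sum_congr rfl fun a _ => ?_
    rw [Matrix.smul_apply, ← Pool.Agent.Y119.HY.cm_pow, Pool.Agent.Y119.HY.cm_apply, Pool.Agent.Y119.HY.Am_pow, smul_eq_mul]
    split_ifs
    · push_cast
      ring
    · simp
  simp only [hE, Finset.mul_sum]
  rw [Finset.sum_comm]
  have hsub : Finset.range ((j : ℕ) + 1) ⊆ Finset.range e.n := by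
    intro a ha
    rw [Finset.mem_range] at ha ⊢
    have := j.2
    omega
  refine Finset.sum_subset_zero_on_sdiff hsub (fun a ha => ?_) fun a ha => ?_
  · rw [Finset.mem_sdiff, Finset.mem_range, Finset.mem_range] at ha
    refine Finset.sum_eq_zero fun c _ => ?_
    rw [if_neg (by omega), mul_zero]
  · rw [Finset.mem_range] at ha
    have hj := j.2
    rw [Finset.sum_eq_single (⟨(j : ℕ) - a, by omega⟩ : Fin e.n)]
    · rw [if_pos (by simp only; omega), mul_comm]
      congr 1
    · intro c _ hc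
      rw [if_neg, mul_zero]
      intro h
      apply hc
      apply Fin.ext
      simp only
      omega
    · intro h
      exact absurd (Finset.mem_univ _) h

theorem types {r : ℕ} {e : Fin r → Eqn} (he : Good e) : ∃ W, JU (fun j => (e j).n) (fun j => (e j).poly) W :=
  JU_QA (n := fun j => (e j).n) (α := fun j => (e j).α) (fun j => (he.1 j).1) (fun j => (he.1 j).2.1)
    (fun j => (he.1 j).2.2.1) (fun j => (he.1 j).2.2.2) (fun i j hij => he.2.1 i j hij) he.2.2

theorem T_eq {e : Eqn} (he : e.Admissible) (z : ℂ) : e.T z = TU e.n e.poly (Complex.log (1 - z)) z := by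
  have h1 : e.poly.coeff (e.n - 1) = ∑ j, e.α j := QA_coeff (by have := he.1; omega) e.α
  have hQ := QG_QA he.1 (nonint he.2.1)
  have hB : e.B 0 = Pool.Agent.Y119.HY.cm (Run7.h893.HO.J0m e.n) := by
    rw [B_eq]
    unfold Run7.h893.HO.Bz
    rw [zero_smul, sub_zero]
  ext X
  unfold Eqn.T TU
  rw [h1, J_eq, hB, B_eq]
  refine and_congr_right fun _ => and_congr ⟨fun h h2 => h ?_, fun h h2 => h ?_⟩ ⟨fun h h2 => h h2.sym, fun h h2 => h ?_⟩
  · exact even_of_QD h2
  · exact QD_of_even hQ h2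
  · exact QO_of_comp he.1 (nonint he.2.1) h2

theorem point_eq {r k : ℕ} {e : Fin r → Eqn} (l : Fin k → ℂ) (X : Fin k → ∀ j, Matrix (Fin (e j).n) (Fin (e j).n) ℂ) :
    point l X = pjc (n := fun j => (e j).n) l X := by
  funext v
  obtain ⟨i, _ | ⟨j, p⟩⟩ := v
  · rfl
  · rfl

theorem mem_T {e : Eqn} (he : e.Admissible) {ξ l : ℂ} (hξ : 1 < ‖ξ‖) : e.Y ξ l ∈ e.T (1 / ξ) := by
  rw [T_eq he, Y_eq]
  refine mem_TU (QG_QA he.1 (nonint he.2.1)) ?_ _
  rw [norm_div, norm_one, div_lt_one (by linarith)]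
  exact hξ

theorem fixed {r : ℕ} (e : Fin r → Eqn) (he : Good e) (k g d δ D : ℕ) (hg : 1 ≤ g) :
    ∃ c C : ℝ, 0 < c ∧ ∀ T : ℕ, 1 ≤ T → Bound k g d δ D e T (C * (T : ℝ) ^ (-c)) := by
  classical
  obtain ⟨W', hJ⟩ := types he
  obtain ⟨c, hc, C, hC, h1⟩ := tup_joint (tg hJ) p_GFS p_TUPA hJ k g δ d D hg
  refine ⟨c, C, hc, fun T hT V hV hVD Ω => ?_⟩
  obtain ⟨h2, h3⟩ := h1 V hV hVD Ω T hT
  have hsub : {ξ : Fin k → ℂ | (∀ i, House g T (ξ i)) ∧ Exceptional δ d V e Ω ξ} ⊆
      {α : Fin k → ℂ | (∀ i, Pool.Agent.Y916.Sl.SInt g T (α i)) ∧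
        ExcJ (fun j => (e j).n) (fun j => (e j).poly) δ d V Ω α} := by
    rintro ξ ⟨hξ, l, hl, L, hL1, hL2, P, hPd, hPc, hP0, l', X, hX, hPX⟩
    refine ⟨fun i => hξ i, l, hl, L, hL1, hL2, P, hPd, hPc, ?_, l', X, fun i j => ?_, ?_⟩
    · rw [point_eq] at hP0
      simp only [Y_eq] at hP0
      exact hP0
    · rw [← T_eq (he.1 j)]
      exact hX i j
    · rw [point_eq] at hPX
      exact hPX
  refine ⟨h2.subset hsub, le_trans ?_ h3⟩
  exact_mod_cast Set.ncard_le_ncard hsub h2

theorem diag {F : ℕ → ℕ → Prop} (h0 : ∀ T, F 0 T) (h : ∀ w, ∀ᶠ T in Filter.atTop, F w T) :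
    ∃ w : ℕ → ℕ, Filter.Tendsto w Filter.atTop Filter.atTop ∧ ∀ T, F (w T) T := by
  classical
  have h1 : ∀ w, ∃ T₀, ∀ T, T₀ ≤ T → F w T := fun w => Filter.eventually_atTop.1 (h w)
  choose T₀ hT₀ using h1
  refine ⟨fun T => Nat.findGreatest (fun w => T₀ w ≤ T) T, ?_, fun T => ?_⟩
  · rw [Filter.tendsto_atTop]
    intro b
    filter_upwards [Filter.eventually_ge_atTop (max b (T₀ b))] with T hT
    exact Nat.le_findGreatest ((le_max_left _ _).trans hT) ((le_max_right _ _).trans hT)
  · show F (Nat.findGreatest (fun w => T₀ w ≤ T) T) T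
    by_cases h2 : Nat.findGreatest (fun w => T₀ w ≤ T) T = 0
    · rw [h2]
      exact h0 T
    · have h3 := Nat.findGreatest_of_ne_zero (P := fun w => T₀ w ≤ T) rfl h2
      exact hT₀ _ T h3

theorem size_finite (r B : ℕ) : {e : Fin r → Eqn | ∀ j, (e j).Size B}.Finite := by
  have h1 : {q : ℚ | |q.num| ≤ B ∧ q.den ≤ B}.Finite := by
    refine (((Set.finite_Icc (-(B : ℤ)) B).prod (Set.finite_Iic B)).image fun p : ℤ × ℕ => (p.1 : ℚ) / p.2).subset ?_
    rintro q ⟨hq1, hq2⟩
    exact ⟨(q.num, q.den), ⟨abs_le.1 hq1, hq2⟩, Rat.num_div_den q⟩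
  have h2 : {e : Eqn | e.Size B}.Finite := by
    refine ((Set.finite_Iic B).biUnion (t := fun n => (fun α : Fin n → ℚ => (⟨n, α⟩ : Eqn)) ''
      {α | ∀ j, α j ∈ {q : ℚ | |q.num| ≤ B ∧ q.den ≤ B}}) fun n _ => (Set.Finite.pi' fun _ => h1).image _).subset ?_
    rintro ⟨n, α⟩ ⟨hn, hα⟩
    exact Set.mem_biUnion (show n ∈ Set.Iic B from hn) ⟨α, hα, rfl⟩
  exact Set.Finite.pi' fun _ => h2

theorem bound_ev {r : ℕ} (e : Fin r → Eqn) (he : Good e) (k g w : ℕ) (hg : 1 ≤ g) (hw : 1 ≤ w) :
    ∀ᶠ T : ℕ in Filter.atTop, Bound k g w w w e T (1 / (w : ℝ)) := by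
  obtain ⟨c, C, hc, h⟩ := fixed e he k g w w w hg
  have hw' : (0 : ℝ) < 1 / w := by positivity
  have h1 : Filter.Tendsto (fun T : ℕ => C * (T : ℝ) ^ (-c)) Filter.atTop (nhds 0) := by
    have h2 := ((tendsto_rpow_neg_atTop hc).comp tendsto_natCast_atTop_atTop).const_mul C
    rwa [mul_zero] at h2
  filter_upwards [h1.eventually_lt_const hw', Filter.eventually_ge_atTop 1] with T hT hT1 V hV hVD Ω
  obtain ⟨h3, h4⟩ := h T hT1 V hV hVD Ω
  exact ⟨h3, h4.trans (mul_le_mul_of_nonneg_right hT.le (by positivity))⟩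

/-- For `|ξ| > 1` the matrices `Y(1 / ξ)` lie in the torsors `T(1 / ξ)`, for all branches and all admissible equations. For
every good list `e_1, …, e_r` of hypergeometric equations and all `k`, `g`, `d`, `δ` and `D` there are `c > 0` and `C` such that
for every `ℚ`-space `V` of complex numbers of dimension `≤ D` and all complex matrices `Ω_ij` at most `C T^(-c) N^k` of the
`N^k` `k`-tuples of algebraic integers of degree `≤ g` with conjugates of size `≤ T` are exceptional. In particular there is a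
function `w(T)` which tends to infinity such that this number is at most `N^k / w(T)` for all `T`, all good lists of at most
`w(T)` equations of size at most `w(T)` and all parameters `k`, `g`, `d`, `δ` and `D` of size at most `w(T)`. -/
theorem result :
    (∀ ξ l : ℂ, 1 < ‖ξ‖ → Complex.exp l = ξ → ∀ e : Eqn, e.Admissible → e.Y ξ l ∈ e.T (1 / ξ)) ∧
    (∀ (r : ℕ) (e : Fin r → Eqn), Good e → ∀ k g d δ D : ℕ, 1 ≤ g →
      ∃ c C : ℝ, 0 < c ∧ ∀ T : ℕ, 1 ≤ T → Bound k g d δ D e T (C * (T : ℝ) ^ (-c))) ∧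
    ∃ w : ℕ → ℕ, Filter.Tendsto w Filter.atTop Filter.atTop ∧ ∀ T : ℕ, ∀ r ≤ w T, ∀ e : Fin r → Eqn, Good e →
      (∀ j, (e j).Size (w T)) → ∀ k ≤ w T, ∀ g ≤ w T, 1 ≤ g → Bound k g (w T) (w T) (w T) e T (1 / (w T : ℝ)) := by
  refine ⟨fun ξ l hξ _ e he => mem_T he hξ, fun r e he k g d δ D hg => fixed e he k g d δ D hg, ?_⟩
  · refine diag (F := fun w T => ∀ r ≤ w, ∀ e : Fin r → Eqn, Good e → (∀ j, (e j).Size w) → ∀ k ≤ w, ∀ g ≤ w, 1 ≤ g →
      Bound k g w w w e T (1 / (w : ℝ))) (fun T r _ e _ _ k _ g hg hg1 => by omega) fun w => ?_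
    rcases Nat.eq_zero_or_pos w with rfl | hw
    · exact Filter.Eventually.of_forall fun T r _ e _ _ k _ g hg hg1 => by omega
    have h1 : ∀ᶠ T : ℕ in Filter.atTop, ∀ r ∈ Set.Iic w, ∀ e ∈ {e : Fin r → Eqn | ∀ j, (e j).Size w}, ∀ k ∈ Set.Iic w,
        ∀ g ∈ Set.Iic w, Good e → 1 ≤ g → Bound k g w w w e T (1 / (w : ℝ)) := by
      rw [Filter.eventually_all_finite (Set.finite_Iic w)]
      intro r _
      rw [Filter.eventually_all_finite (size_finite r w)]
      intro e _
      rw [Filter.eventually_all_finite (Set.finite_Iic w)]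
      intro k _
      rw [Filter.eventually_all_finite (Set.finite_Iic w)]
      intro g _
      by_cases he : Good e
      · by_cases hg : 1 ≤ g
        · filter_upwards [bound_ev e he k g w hg hw] with T hT _ _
          exact hT
        · exact Filter.Eventually.of_forall fun T _ h => absurd h hg
      · exact Filter.Eventually.of_forall fun T h => absurd h he
    filter_upwards [h1] with T hT r hr e he hs k hk g hg hg1
    exact hT r hr e hs k hk g hg he hg1

end Pool.Agent.Results.MP_77d3f5_ag.HypergeometricAlmostAll
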