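import Pool.Agent.N208.LC.Fin
import Pool.Agent.N297.LCCOREG
import Pool.Agent.Run7.h2.OB.Pl

set_option autoImplicit false

/-!
# The period conjecture for algebraic cycles on powers of abelian varieties with one ball place

Let `A` be an abelian variety over `ℚ̄`, such that the centre of `End(A) ⊗ ℚ` is a CM field `F`,
generated by an element `z` with `z̄ = - z`. (So `A` is isogenous to a power of a simple abelian variety
of type IV.) Let `B` be the algebra of the endomorphisms of the rational vector space `H_1(A, ℚ)` which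
commute with `End(A)`, a central simple algebra over `F`, of dimension `N ^ 2`. Let `S` be a set of
representatives, modulo `a ↦ - a`, of the real numbers `a` such that both `i a` and `- i a` are eigenvalues
of `z` on the tangent space of `A`: so `S` is the set of the places of `F` at which the unitary group of
`B` is not compact, of a signature `(r_a, s_a)` with `r_a, s_a ≥ 1`, `r_a + s_a = N`.

**One ball place** (`OneBallType`). We assume that the signature is `(1, N - 1)` at *one* place
`al ∈ S`. At all other places of `S` the signatures `(r_a, s_a)` are **arbitrary**. If `B = B₁ F` for a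
subalgebra `B₁ ⊆ B` over `ℚ`, then the elements of `F` in `B₁` separate `± i a` and `± i b` for
different `a`, `b` in `S`, and they separate `i al` and `- i al`.

The condition on `B₁` is for example true if the order of `B` in the Brauer group is at least three and
all proper subfields of `F` are real (for example if `F` is cyclic of degree `2 ^ k`): the centre `F₁`
of `B₁` is not real, since a central simple algebra over the maximal real subfield of `F` which is
isomorphic to `B` over `F` would show that `B` is isomorphic to its complex conjugate, which is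
isomorphic to the opposite algebra, because of the positive involution. So `F₁ = F`. For example let `F`
be cyclic of degree four over `ℚ`, let `B` be a division algebra of degree `N ≥ 3` with an involution
of the second kind, of order at least three; the Shimura varieties of the unitary groups of signatures
`(1, N - 1)`, `(r, s)` are compact, of dimension `N - 1 + r s`, and the theorem applies to the
general abelian varieties of these families.

**Theorem.** Let `m` and `n` be natural numbers, and suppose that

1. `m < N` if `N` is odd, `2 m < N` if `N` is even; or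
2. (`ControlledCentre`) there is an abelian variety `A'` with `A` as a factor, such that the centre of
   the Lie algebra of the Hodge group of `A'` is rigid, and acts on `A` through all elements `x ∈ F` with
   `x̄ = - x`.

Then every de Rham-Betti class in `H^1(A ^ n) ^ {⊗ 2 m} (m)` is a linear combination of products of
Hodge classes in `H^1(A ^ n) ^ {⊗ 2} (1)`, and every class in `H^{2 m}_Gr(A ^ n, ℚ(m))` is a
linear combination of products of `m` divisor classes. Let `(f, t)` be an isomorphism of the de Rham and
the Betti realization of `A` over `ℂ` and a multiplier, for example a point of the closure `Z_A` of the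
comparison isomorphism, or a point of the motivic torsor of periods `Ω^mot_A`. If it respects the
Hodge classes in `H^1(A) ^ {⊗ 2} (1)` (the classes of the divisors on `A × A`), then it respects all
de Rham-Betti classes in `H^1(A) ^ {⊗ 2 m} (m)`.

So in the case 2 the torsor which is defined by the de Rham-Betti classes on all powers of `A` is the
motivic torsor of periods `Ω^mot_A`, and it is defined by the classes of the divisors on `A × A`: no
rational tensor classes can exclude a point of `Ω^mot_A` from `Z_A`. In the case 1 this is true for the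
classes of codimension `m < N` (`N` odd), `m < N / 2` (`N` even), on all powers, for all CM fields `F`.

**Known before, and what is new.** The starting library of this repository has the theorem for the types
`BallType` (the signature is `(1, N - 1)` at *all* places of `S`) and `DivisionType` (`N` is a prime number
and `B` is a division algebra), see `UnitaryPowers` for another problem. Here `N` and `B` are
arbitrary, and the signature is a condition at one place only. The previous methods work at each
place separately: at each place the theorems on irreducible real Lie subalgebras of `u(r, s)`, together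
with the arithmetic at this place, must show that the de Rham-Betti Lie algebra contains
`su(r, s)`; for the signatures `(r, s)` with `r, s ≥ 2` there are irreducible subalgebras which are defined
by tensors and not excluded by the theorem of Schneider and Lang. The new step is a
**transfer between places** (`Run7.h2.OB.big_of_one`), see the proof.

**In all codimensions.** The assumption 2 is satisfied if the centre of the Lie algebra of the Hodge group
of a product `A × C` with an abelian variety `C` of CM type is rigid and maps onto the `x ∈ F` with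
`x̄ = - x`.

Nothing is assumed about periods: `AbVar` is the description of an abelian variety over `ℚ̄` by theta
functions (see `Pool/Agent/Y102/AVDefs.lean`, where it is explained why every abelian variety has it),
and the transcendence theorems which are used, the theorem of Schneider and Lang and the
transcendence of `π`, are proved in this repository.

## The classes

The cohomology of the abelian variety `A ^ n` in degree `2 m` is the space of the alternating forms in
`2 m` variables on `H_1(A ^ n, ℚ) = H_1(A, ℚ) ^ n`, and `H^{2m}_dR(A ^ n / ℚ̄)` is the exterior power of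
`H^1_dR(A ^ n / ℚ̄)`, which has a basis consisting of the elements `A.dR i` on the `n` factors
(`dRPow`). So `H^{2m}_Gr(A ^ n, ℚ(m))` is the space of the rational alternating forms `φ` such that
`(2 π i) ^ m φ` is a combination of products of elements of this basis, with algebraic
coefficients (`IsDRB`). The variables are indexed by `Fin m × Fin 2`. A rational alternating form in two
variables which is a Hodge class is the class of a divisor, with rational coefficients, by the theorem of
Lefschetz (`IsDivisorClass`).

## Proof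

Let `𝔩` be the Lie algebra of the endomorphisms of `H_1(A, ℚ)` which annihilate all de Rham-Betti
classes. By the theorem of Schneider and Lang `𝔩` acts semisimply, with the commutant `End(A) ⊗ ℚ`.

1. At the place `al` the theorem on the irreducible subalgebras of `u(1, N - 1)` shows that `[𝔩, 𝔩] ⊗ ℝ`
   has the image `su(1, N - 1)`.
2. (The transfer.) Let `X`, `Y` be elements of `B`. On the eigenspace of `i al` the commutator
   `X Y - Y X` is a matrix of trace zero, so it is equal to an element of `([𝔩, 𝔩] F) ⊗ ℝ`; as `F` is a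
   field, the rational endomorphism `X Y - Y X` is then an element of `[𝔩, 𝔩] F` (`rat_of_one`:
   apply a linear map `ℝ → ℚ`, and divide by a nonzero element of `F`). So `[B, B] ⊆ [𝔩, 𝔩] F`. At any
   other place this shows that the complex span of the image of `[𝔩, 𝔩]` contains all commutators of a
   monoid of matrices which acts irreducibly, so it contains the long roots (`big_at`).
3. The images at different places are independent, since they are separated (`N208.BT`). As `F` is a
   field, `[𝔩, 𝔩]` is equal to the Lie algebra `su(B)` of the skew elements of `B` with the reduced trace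
   zero (`S_U`).
4. Over `ℂ` the Lie algebra `su(B)` is a product of Lie algebras `sl(N)`, and the invariant forms in `2 m`
   variables are combinations of products of contractions, by the first fundamental theorem
   (`S_BR`, and `S_BRG` in the case 2), and these are given by endomorphisms of `A`.
-/

open Module Matrix Pool.Agent.Y102 Pool.Agent.W516.DR Pool.Agent.H204R3.GP

noncomputable section

namespace Pool.Agent.Results.MP_77d3f5_ag.MixedSignaturePowers

variable {g : ℕ} (A : AbVar g)

/-! ### Abelian varieties of unitary type -/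

/-- `P` is an endomorphism of `A` (up to isogeny), in terms of its action on `H_1(A, ℚ)`: it respects
the de Rham structure. (By the theorem of Bost, which is proved in `Pool.Agent.Y102.AbVar.hodge_end`,
these are the elements of `End(A) ⊗ ℚ`.) -/
def IsEndo (P : Module.End ℚ A.H1) : Prop := IsDeRhamBettiEnd QBar A.dR P

/-- The endomorphism `X` of `H_1(A, ℚ)` commutes with the endomorphisms of `A`. -/
def Commutes (X : Module.End ℚ A.H1) : Prop := ∀ P, IsEndo A P → X * P = P * X

/-- `X` is a polynomial in `z`. -/
def IsPolynomial (z X : Module.End ℚ A.H1) : Prop := ∃ q : Polynomial ℚ, X = Polynomial.aeval z q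

/-- `X` is skew-symmetric for the polarization. -/
def IsSkewSymmetric (X : Module.End ℚ A.H1) : Prop := ∀ u v, A.om (X u) v + A.om u (X v) = 0

/-- The centre of the algebra of the endomorphisms is the field `ℚ[z]`, and `z` is skew-symmetric. -/
structure CentreField (z : Module.End ℚ A.H1) : Prop where
  endo : IsEndo A z
  central : Commutes A z
  generates : ∀ P, IsEndo A P → Commutes A P → IsPolynomial A z P
  skew : IsSkewSymmetric A z
  nonzero : z ≠ 0
  /-- the nonzero elements of `ℚ[z]` are injective -/
  field : ∀ X, IsPolynomial A z X → X ≠ 0 → Function.Injective X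

/-- The commutant of the endomorphisms is of dimension `N ^ 2` over `ℚ[z]`. -/
def HasDegree (z : Module.End ℚ A.H1) (N : ℕ) : Prop :=
  Set.finrank ℚ {X | Commutes A X} = N ^ 2 * Set.finrank ℚ {X | IsPolynomial A z X}

/-- `x` is an eigenvector of `z` for the eigenvalue `i a` (or zero); here `H_1(A, ℝ) = ℂ ^ g` is the
tangent space, and `A.ext z` is the real linear extension of `z`. -/
def Eigen (z : Module.End ℚ A.H1) (a : ℝ) (x : Fin g → ℂ) : Prop :=
  A.ext z x = ((a : ℂ) * Complex.I) • x

/-- `i a` is an eigenvalue of `z` on the tangent space. -/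
def IsEigenvalue (z : Module.End ℚ A.H1) (a : ℝ) : Prop := ∃ x, x ≠ 0 ∧ Eigen A z a x

/-- The nonempty set `S` represents the indefinite places: `± S` is the set of the numbers `a` such
that `i a` and `- i a` are eigenvalues of `z` on the tangent space. -/
structure Places (z : Module.End ℚ A.H1) (S : Finset ℝ) : Prop where
  nonempty : S.Nonempty
  disjoint : ∀ a ∈ S, -a ∉ S
  indefinite : ∀ a : ℝ, (a ∈ S ∨ -a ∈ S) ↔ (IsEigenvalue A z a ∧ IsEigenvalue A z (-a))

/-- **The separation.** If the subalgebra `B₁` generates together with `z` the algebra `B` of all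
endomorphisms which commute with the endomorphisms of `A`, then `B₁` contains a polynomial in `z`
which separates the numbers `i a` and `i b`. -/
def Separates (z : Module.End ℚ A.H1) (a b : ℝ) : Prop :=
  ∀ B₁ : Subalgebra ℚ (Module.End ℚ A.H1), (∀ X ∈ B₁, Commutes A X) →
    (∀ X, Commutes A X → X ∈ Algebra.adjoin ℚ ((B₁ : Set (Module.End ℚ A.H1)) ∪ {z})) →
    ∃ q : Polynomial ℚ, Polynomial.aeval z q ∈ B₁ ∧
      Polynomial.aeval ((a : ℂ) * Complex.I) q ≠ Polynomial.aeval ((b : ℂ) * Complex.I) q

/-- **One ball place.** The eigenspace of `i al` on the tangent space is a simple module over the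
algebra of the endomorphisms: the signature at `al` is `(1, N - 1)`. The signatures at the other places of
`S` are arbitrary. The numbers `± i a` and `± i b` are separated for different `a`, `b` in `S`,
and `i al` and `- i al` are separated. -/
structure OneBallType (z : Module.End ℚ A.H1) (S : Finset ℝ) (al : ℝ) : Prop where
  mem : al ∈ S
  simple : ∀ x y, x ≠ 0 → Eigen A z al x → Eigen A z al y →
    y ∈ Submodule.span ℂ {w | ∃ P, IsEndo A P ∧ w = A.ext P x}
  separated : ∀ a b : ℝ, (a ∈ S ∨ -a ∈ S) → (b ∈ S ∨ -b ∈ S) → a ≠ b →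
    (a ≠ -b ∨ a = al ∨ a = -al) → Separates A z a b

/-- **Abelian varieties of unitary type with one ball place.** -/
structure UnitaryType (z : Module.End ℚ A.H1) (S : Finset ℝ) (al : ℝ) (N : ℕ) : Prop where
  centre : CentreField A z
  degree : HasDegree A z N
  places : Places A z S
  type : OneBallType A z S al

/-! ### The centre of the Lie algebra of the Hodge group -/

/-- The multilinear forms in `2m` variables in the rational homology. -/
abbrev Form (m : ℕ) : Type := MultilinearMap ℚ (fun _ : Fin m × Fin 2 => A.H1) ℚ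

/-- The endomorphism `X` annihilates the form `φ` (as a derivation). -/
def Annihilates {m : ℕ} (X : Module.End ℚ A.H1) (φ : Form A m) : Prop :=
  ∀ v, ∑ k, φ (Function.update v k (X (v k))) = 0

/-- `X` is in the Lie algebra `𝔤` of the Hodge group: it annihilates all classes in
`H^1(A) ^ {⊗ 2m} (m)` that are Hodge classes and de Rham-Betti classes. -/
def InLie (X : Module.End ℚ A.H1) : Prop :=
  ∀ (m : ℕ) (φ : Form A m), IsHodgeTensor (A.per : A.H1 →+ (Fin g → ℂ)) φ →
    IsDeRhamBettiForm QBar A.dR (2 * Real.pi * Complex.I) m φ → Annihilates A X φ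

/-- `X` is an element of the centre of `𝔤`. -/
def InCentre (X : Module.End ℚ A.H1) : Prop := InLie A X ∧ ∀ Y, InLie A Y → Y * X = X * Y

/-- The algebra of the endomorphisms of `H_1(A, ℂ)`, as matrices for the basis of the lattice. -/
def toC (X : Module.End ℚ A.H1) : Matrix (Fin (2 * g)) (Fin (2 * g)) ℂ :=
  Matrix.of fun i j => (X (Pi.single j 1) i : ℂ)

/-- The endomorphisms which commute with `X` and with the derived algebra of `𝔤` commute with the
centre of `𝔤`. -/
def Generates (X : Module.End ℚ A.H1) : Prop :=
  ∀ T : Module.End ℚ A.H1,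
    (∀ Y, InLie A Y → ∀ Z, InLie A Z → T * (Y * Z - Z * Y) = (Y * Z - Z * Y) * T) →
    T * X = X * T → ∀ Z, InCentre A Z → T * Z = Z * T

/-- All relations `∑ i, x i = 0` between eigenvalues of `X` imply the relation `∑ i, y i = 0` between
the eigenvalues of `Y` for the same eigenvectors. -/
def RelationsOf (X Y : Module.End ℚ A.H1) : Prop :=
  ∀ (r : ℕ) (v : Fin r → Fin (2 * g) → ℂ) (x y : Fin r → ℂ),
    (∀ i, v i ≠ 0 ∧ Matrix.mulVec (toC A X) (v i) = x i • v i ∧
      Matrix.mulVec (toC A Y) (v i) = y i • v i) → ∑ i, x i = 0 → ∑ i, y i = 0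

/-- The centre of `𝔤` is rigid: the relations between the eigenvalues of a generating element of the
centre hold for all elements of the centre. -/
def RigidCentre : Prop :=
  ∀ X, InCentre A X → Generates A X → ∀ Y, InCentre A Y → RelationsOf A X Y

/-- `A` is a factor of `A'` (up to isogeny): `π` is a homomorphism `A' → A`, in terms of the rational
homology, and `ι` is a section of `π`. -/
structure IsFactor {g' : ℕ} (A' : AbVar g') (ι : A.H1 →ₗ[ℚ] A'.H1) (π : A'.H1 →ₗ[ℚ] A.H1) :
    Prop where
  section_ : ∀ v, π (ι v) = v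
  homomorphism : ∃ a : Fin g ⊕ Fin g → Fin g' ⊕ Fin g' → QBar, ∀ i w, A.dR i (π w) =
    ∑ j, algebraMap QBar ℂ (a i j) * A'.dR j w

/-- `A` is a factor of an abelian variety `A'` such that the centre of the Lie algebra of the Hodge
group of `A'` is rigid and acts on `A` through all skew-symmetric elements of `ℚ[z]`. -/
def ControlledCentre (z : Module.End ℚ A.H1) : Prop :=
  ∃ (g' : ℕ) (A' : AbVar g') (ι : A.H1 →ₗ[ℚ] A'.H1) (π : A'.H1 →ₗ[ℚ] A.H1),
    IsFactor A A' ι π ∧ RigidCentre A' ∧
    ∀ x, IsPolynomial A z x → IsSkewSymmetric A x → ∃ X, InCentre A' X ∧ ∀ v, π (X (ι v)) = x v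

/-! ### The classes on the powers -/

/-- The inclusion of the rational homology of `A ^ n` in the tangent space. -/
def perPow (n : ℕ) : (Fin n → A.H1) →+ (Fin n → Fin g → ℂ) where
  toFun v j := A.per (v j)
  map_zero' := by
    funext j
    exact map_zero _
  map_add' u v := by
    funext j
    exact map_add _ _ _

/-- The basis of `H^1_dR(A ^ n / ℚ̄)`. -/
def dRPow (n : ℕ) (i : (Fin g ⊕ Fin g) × Fin n) : (Fin n → A.H1) →ₗ[ℚ] ℂ :=
  (A.dR i.1).comp (LinearMap.proj i.2)

/-- `H^1(A ^ n, ℚ) ^ {⊗ 2m}`: the multilinear forms in `2 m` variables in `H_1(A ^ n, ℚ)`. -/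
abbrev TensorPow (m n : ℕ) : Type := MultilinearMap ℚ (fun _ : Fin m × Fin 2 => Fin n → A.H1) ℚ

/-- `H^{2m}(A ^ n, ℚ)`: the alternating forms in `2 m` variables in `H_1(A ^ n, ℚ)`. -/
abbrev Cohomology (m n : ℕ) : Type := (Fin n → A.H1) [⋀^Fin m × Fin 2]→ₗ[ℚ] ℚ

/-- The bilinear forms on `H_1(A ^ n, ℚ)`. -/
abbrev Bilinear (n : ℕ) : Type := (Fin n → A.H1) →ₗ[ℚ] (Fin n → A.H1) →ₗ[ℚ] ℚ

/-- `φ` is a de Rham-Betti class in `H^1(A ^ n) ^ {⊗ 2m} (m)`. -/
def IsDRB {m n : ℕ} (φ : TensorPow A m n) : Prop :=
  IsDeRhamBettiForm QBar (dRPow A n) (2 * Real.pi * Complex.I) m φ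

/-- `φ` is an element of `H^{2m}_Gr(A ^ n, ℚ(m))`. -/
def IsGr {m n : ℕ} (φ : Cohomology A m n) : Prop := IsDRB A φ.toMultilinearMap

/-- `φ` is a linear combination of products of Hodge classes in `H^1(A ^ n) ^ {⊗ 2} (1)`, where the
`2 m` variables are distributed in some way. -/
def IsDecomposable {m n : ℕ} (φ : TensorPow A m n) : Prop :=
  φ ∈ Submodule.span ℚ {ψ | IsProductOfHodgeBilinear (perPow A n) ψ}

/-- The alternating bilinear form `b` is a Hodge class in `H^2(A ^ n) (1)`, that is (Lefschetz), a
rational multiple of the class of a divisor. -/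
def IsDivisorClass {n : ℕ} (b : Bilinear A n) : Prop :=
  IsHodgeBilinear (perPow A n) b ∧ ∀ u, b u u = 0

/-- The product of the values of the bilinear forms `b l` on the vectors `v (l, 0)`, `v (l, 1)`. -/
def prodAt {m n : ℕ} (b : Fin m → Bilinear A n) (v : Fin m × Fin 2 → Fin n → A.H1) : ℚ :=
  ∏ l, b l (v (l, 0)) (v (l, 1))

/-- The alternating form `ψ` is the product of the classes `b l` of degree two. -/
def IsProduct {m n : ℕ} (b : Fin m → Bilinear A n) (ψ : Cohomology A m n) : Prop :=
  ∀ v, ψ v = ∑ σ : Equiv.Perm (Fin m × Fin 2), ((Equiv.Perm.sign σ : ℤ) : ℚ) * prodAt A b (v ∘ σ)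

/-- `φ` is a linear combination of products of divisor classes. -/
def IsSumOfProducts {m n : ℕ} (φ : Cohomology A m n) : Prop :=
  φ ∈ Submodule.span ℚ {ψ | ∃ b : Fin m → Bilinear A n, (∀ l, IsDivisorClass A (b l)) ∧
    IsProduct A b ψ}

/-! ### The torsors -/

/-- The pair `(f, t)` respects the class `φ` in `H^1(A) ^ {⊗ 2m} (m)`: here `f` is a linear map from
`H^1_dR(A / ℚ̄)` to the Betti cohomology with complex coefficients, given by the images of the basis
`A.dR`, and `t` is the multiplier. If `(2 π i) ^ m φ = ∑ a J ∏ A.dR (J l)`, then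
`t ^ m φ = ∑ a J ∏ f (J l)`. -/
def Respects (f : Fin g ⊕ Fin g → (A.H1 →ₗ[ℚ] ℂ)) (t : ℂ) {m : ℕ} (φ : Form A m) : Prop :=
  ∀ a : (Fin m × Fin 2 → Fin g ⊕ Fin g) → QBar,
    (∀ v, (2 * Real.pi * Complex.I) ^ m * (φ v : ℂ) =
      ∑ J, algebraMap QBar ℂ (a J) * ∏ l, A.dR (J l) (v l)) →
    ∀ v, t ^ m * (φ v : ℂ) = ∑ J, algebraMap QBar ℂ (a J) * ∏ l, f (J l) (v l)

/-! ### The proof -/

variable {A}

theorem comm_iff (X : Module.End ℚ A.H1) : Commutes A X ↔ X ∈ N208.BT.CB A :=
  ⟨fun h P hP => h P (A.mem_EA.1 hP), fun h P hP => h P (A.mem_EA.2 hP)⟩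

theorem mem_adjoin (z X : Module.End ℚ A.H1) :
    IsPolynomial A z X ↔ X ∈ (Algebra.adjoin ℚ {z}).toSubmodule := by
  rw [Subalgebra.mem_toSubmodule, Algebra.adjoin_singleton_eq_range_aeval]
  exact ⟨fun ⟨q, hq⟩ => ⟨q, hq.symm⟩, fun ⟨q, hq⟩ => ⟨q, hq.symm⟩⟩

theorem deg_eq {z : Module.End ℚ A.H1} {N : ℕ} (h : HasDegree A z N) :
    finrank ℚ (N208.BT.CB A) = N ^ 2 * finrank ℚ (Algebra.adjoin ℚ {z}) := by
  have e1 : Submodule.span ℚ {X : Module.End ℚ A.H1 | Commutes A X} = N208.BT.CB A := by
    have h1 : {X : Module.End ℚ A.H1 | Commutes A X} = N208.BT.CB A := Set.ext fun X => comm_iff X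
    rw [h1, Submodule.span_eq]
  have e2 : Submodule.span ℚ {X : Module.End ℚ A.H1 | IsPolynomial A z X} =
      (Algebra.adjoin ℚ {z}).toSubmodule := by
    have h1 : {X : Module.End ℚ A.H1 | IsPolynomial A z X} =
        (Algebra.adjoin ℚ {z}).toSubmodule := Set.ext fun X => mem_adjoin z X
    rw [h1, Submodule.span_eq]
  have h1 := h
  unfold HasDegree Set.finrank at h1
  rw [e1, e2] at h1
  exact h1

theorem CentreField.surj {z : Module.End ℚ A.H1} (h : CentreField A z) : Function.Surjective z := by
  have h1 := h.field z ⟨Polynomial.X, by rw [Polynomial.aeval_X]⟩ h.nonzero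
  exact LinearMap.injective_iff_surjective.1 h1

theorem CentreField.cancel {z : Module.End ℚ A.H1} (h : CentreField A z)
    {X Y : Module.End ℚ A.H1} (e : X * z = Y * z) : X = Y := by
  refine LinearMap.ext fun v => ?_
  obtain ⟨w, rfl⟩ := h.surj v
  exact LinearMap.congr_fun e w

theorem UnitaryType.toHF {z : Module.End ℚ A.H1} {S : Finset ℝ} {al : ℝ} {N : ℕ}
    (h : UnitaryType A z S al N) : N208.LC.HF A z N where
  mem := A.mem_EA.2 h.centre.endo
  cen := fun P hP => h.centre.central P (A.mem_EA.1 hP)
  skew := h.centre.skew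
  ne := h.centre.nonzero
  field := fun q hq => h.centre.field _ ⟨q, rfl⟩ hq
  gen := fun P hP hc => h.centre.generates P (A.mem_EA.1 hP) fun Q hQ => hc Q (A.mem_EA.2 hQ)
  deg := deg_eq h.degree

theorem Places.ne {z : Module.End ℚ A.H1} {S : Finset ℝ} (h : Places A z S) (hz : CentreField A z)
    {a : ℝ} (ha : a ∈ S) : a ≠ 0 := by
  rintro rfl
  exact h.disjoint 0 ha (by rwa [neg_zero])

theorem sep_of {z : Module.End ℚ A.H1} (hz : CentreField A z) {a b : ℝ} (h : Separates A z a b)
    (D₁ : Subalgebra ℚ (Module.End ℚ A.H1)) (h1 : ∀ X ∈ D₁, X ∈ N208.BT.CB A)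
    (h2 : ∀ X ∈ N208.BT.CB A, ∃ X' ∈ Algebra.adjoin ℚ ((D₁ : Set (Module.End ℚ A.H1)) ∪ {z}),
      X * z = X' * z) :
    ∃ (q : Polynomial ℚ), ∃ X ∈ D₁, X * z = Polynomial.aeval z q * z ∧
      Polynomial.aeval ((a : ℂ) * Complex.I) q ≠ Polynomial.aeval ((b : ℂ) * Complex.I) q := by
  obtain ⟨q, hq, hne⟩ := h D₁ (fun X hX => (comm_iff X).2 (h1 X hX)) fun X hX => by
    obtain ⟨X', hX', e⟩ := h2 X ((comm_iff X).1 hX)
    rw [hz.cancel e]
    exact hX'
  exact ⟨q, _, hq, rfl, hne⟩

theorem UnitaryType.toHO {z : Module.End ℚ A.H1} {S : Finset ℝ} {al : ℝ} {N : ℕ}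
    (h : UnitaryType A z S al N) : Run7.h2.OB.HO A z al S where
  mem := A.mem_EA.2 h.centre.endo
  cen := fun P hP => h.centre.central P (A.mem_EA.1 hP)
  skew := h.centre.skew
  gen := by
    intro P hP hc
    obtain ⟨q, hq⟩ := h.centre.generates P (A.mem_EA.1 hP) fun Q hQ => hc Q (A.mem_EA.2 hQ)
    exact ⟨q, by rw [hq]⟩
  fld := by
    intro q hq v hv
    have h0 : Polynomial.aeval z q ≠ 0 := fun h0 => hq (by rw [h0, zero_mul])
    have h1 := h.centre.field _ ⟨q, rfl⟩ h0
    exact h1 (by rw [hv, map_zero])
  al_mem := h.type.mem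
  ne := fun a ha => h.places.ne h.centre ha
  e1 := fun a ha => ((h.places.indefinite a).1 (Or.inl ha)).1
  e2 := fun a ha => ((h.places.indefinite a).1 (Or.inl ha)).2
  disj := h.places.disjoint
  simple := fun x y hx h2 h3 => by
    refine (Submodule.span_mono ?_) (h.type.simple x y hx h2 h3)
    rintro w ⟨P, hP, rfl⟩
    exact ⟨P, A.mem_EA.2 hP, rfl⟩
  sep := by
    intro D₁ h2 h3 a b ha hb hab hab'
    exact sep_of h.centre (h.type.separated a b ha hb hab hab') D₁ h2 h3

theorem UnitaryType.toHL {z : Module.End ℚ A.H1} {S : Finset ℝ} {al : ℝ} {N : ℕ}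
    (h : UnitaryType A z S al N) : N208.LC.HL A z S where
  hg := h.toHO.hg
  field := fun q hq => h.centre.field _ ⟨q, rfl⟩ hq
  ne := h.places.nonempty
  dfn := fun b hb hb' => (h.places.indefinite b).2 ⟨hb, hb'⟩

theorem ControlledCentre.mem {z : Module.End ℚ A.H1} (h : ControlledCentre A z)
    {q : Polynomial ℚ} (hq : IsSkewSymmetric A (Polynomial.aeval z q)) :
    Polynomial.aeval z q ∈ A.LA := by
  obtain ⟨g', A', ι, π, hf, hr, hc⟩ := h
  obtain ⟨X, hX, hX'⟩ := hc _ ⟨q, rfl⟩ hq
  have h1 : A'.CN ≤ A'.LA := A'.centre_le fun X hX hg Y hY => by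
    refine dom_of_matrix (hr X ⟨hX.1, hX.2⟩ (fun T hT hTX Z hZ => ?_) Y ⟨hY.1, hY.2⟩)
    exact hg T hT hTX Z ⟨hZ.1, hZ.2⟩
  exact N208.LC.mem_LA_of_fac ⟨hf.section_, hf.homomorphism⟩ (h1 ⟨hX.1, hX.2⟩) hX'

theorem span_Lef {m : ℕ} {φ : Form A m}
    (h : φ ∈ Submodule.span ℚ (N208.LC.PrB (Fin m × Fin 2) m
      (N208.LC.QE A : Set (A.H1 →ₗ[ℚ] A.H1 →ₗ[ℚ] ℚ)))) :
    φ ∈ Submodule.span ℚ (AbVar.LefProd A A.EA m) := by
  refine (Submodule.span_mono ?_) h
  rintro ψ ⟨ε, c, hc, h⟩
  choose Q hQ hcQ using hc
  refine ⟨(Equiv.prodCongr (Equiv.refl (Fin m)) (Equiv.swap 0 1)).trans ε, fun l => -Q l,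
    fun l => A.EA.neg_mem (hQ l), fun v => ?_⟩
  rw [h]
  refine Finset.prod_congr rfl fun l _ => ?_
  have e0 : ((Equiv.prodCongr (Equiv.refl (Fin m)) (Equiv.swap (0 : Fin 2) 1)).trans ε) (l, 0) =
      ε (l, 1) := by simp
  have e1 : ((Equiv.prodCongr (Equiv.refl (Fin m)) (Equiv.swap (0 : Fin 2) 1)).trans ε) (l, 1) =
      ε (l, 0) := by simp
  rw [e0, e1, hcQ, LinearMap.neg_apply, map_neg, LinearMap.neg_apply, ← A.om_anti]

theorem respects_of {m : ℕ} {φ : Form A m}
    (h : φ ∈ Submodule.span ℚ (AbVar.LefProd A A.EA m))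
    {f : Fin g ⊕ Fin g → (A.H1 →ₗ[ℚ] ℂ)} {t : ℂ}
    (hf : ∀ ψ : Form A 1, IsHodgeTensor (A.per : A.H1 →+ (Fin g → ℂ)) ψ → Respects A f t ψ) :
    Respects A f t φ := by
  have key : φ ∈ A.Good (Fin m × Fin 2) f t m := by
    refine (Submodule.span_le.2 ?_) h
    rintro ψ ⟨σ, Q, hQ, hψ⟩
    choose b hb using fun l => A.lef_drb (hQ l)
    have hb' : ∀ l u v, t * ((A.om (Q l u) v : ℚ) : ℂ) =
        ∑ i, ∑ j, algebraMap QBar ℂ (b l i j) * (f i u * f j v) := by
      intro l
      have h4 := (A.two_compat (B := A.om.comp (Q l)) (F := A.dR) (t := tau) (b := b l)).2 (hb l)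
      have h5 := (Compat.reindex (Equiv.uniqueProd (Fin 2) (Fin 1)).symm).2 h4
      refine (A.two_compat (B := A.om.comp (Q l)) (F := f) (t := t) (b := b l)).1
        ((Compat.reindex (Equiv.uniqueProd (Fin 2) (Fin 1)).symm).1 ?_)
      intro v
      rw [zpow_one, ← pow_one t]
      refine hf _ ?_ _ (fun v => ?_) v
      · obtain ⟨P', hP'⟩ := A.hodge_end (A.mem_EA.1 (hQ l))
        refine ⟨(MultilinearMap.mk' (fun u : Fin 1 × Fin 2 → (Fin g → ℂ) =>
          A.E (P' (u (0, 0))) (u (0, 1))) ?_ ?_), fun v => ?_, fun z hz u => ?_⟩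
        · rintro u ⟨i, j⟩ x y
          fin_cases i
          fin_cases j
          · simp [Function.update]
          · simp [Function.update]
        · rintro u ⟨i, j⟩ c x
          fin_cases i
          fin_cases j
          · simp [Function.update]
          · simp [Function.update]
        · change A.E (P' (A.per (v (0, 0)))) (A.per (v (0, 1))) = _
          have h1 : P' (A.per (v (0, 0))) = A.per (Q l (v (0, 0))) := hP' (v (0, 0))
          rw [MultilinearMap.domDomCongr_apply, A.two_apply, h1, ← AbVar.om_coe]
          rfl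
        · change A.E (P' (z • u (0, 0))) (z • u (0, 1)) = A.E (P' (u (0, 0))) (u (0, 1))
          rw [P'.map_smul, A.E_unit z hz]
      · have h6 := h5 v
        rw [zpow_one] at h6
        rw [pow_one]
        exact h6
    exact ⟨_, Compat.prod σ (fun l => A.om.comp (Q l)) b hb ψ hψ,
      Compat.prod σ (fun l => A.om.comp (Q l)) b hb' ψ hψ⟩
  obtain ⟨a', h4, h5⟩ := key
  intro a ha v
  have h1 : Compat A.dR tau m a φ := fun v => by
    rw [zpow_natCast]
    exact ha v
  have h6 := h5 v
  rw [A.compat_unique h1 h4, ← h6, zpow_natCast]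

/-- **Theorem.** Let `A` be an abelian variety of unitary type with one ball place, of degree `N`.
Let `m` be a natural number with `2 m < N`, or with `m < N` if `N` is odd; or let `m` be arbitrary and
let the centre be controlled. Then

1. for all `n` every de Rham-Betti class in `H^1(A ^ n) ^ {⊗ 2m} (m)` is a linear combination of products
   of Hodge classes of degree two;
2. for all `n` every class in `H^{2m}_Gr(A ^ n, ℚ(m))` is a linear combination of products of divisor
   classes;
3. if `(f, t)` respects all Hodge classes in `H^1(A) ^ {⊗ 2} (1)`, then it respects all de Rham-Betti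
   classes in `H^1(A) ^ {⊗ 2m} (m)`. -/
theorem result {g : ℕ} (A : AbVar g) (z : Module.End ℚ A.H1) (S : Finset ℝ) (al : ℝ) (N : ℕ)
    (hA : UnitaryType A z S al N) (m : ℕ)
    (hm : (2 * m < N ∨ (Odd N ∧ m < N)) ∨ ControlledCentre A z) :
    (∀ (n : ℕ) (φ : TensorPow A m n), IsDRB A φ → IsDecomposable A φ) ∧
      (∀ (n : ℕ) (φ : Cohomology A m n), IsGr A φ → IsSumOfProducts A φ) ∧
      ∀ (f : Fin g ⊕ Fin g → (A.H1 →ₗ[ℚ] ℂ)) (t : ℂ),
        (∀ ψ : Form A 1, IsHodgeTensor (A.per : A.H1 →+ (Fin g → ℂ)) ψ → Respects A f t ψ) →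
        ∀ φ : Form A m, IsDeRhamBettiForm QBar A.dR (2 * Real.pi * Complex.I) m φ →
          Respects A f t φ := by
  have key : ∀ φ : Form A m, IsDeRhamBettiForm QBar A.dR tau m φ →
      φ ∈ Submodule.span ℚ (AbVar.LefProd A A.EA m) := by
    intro φ hφ
    refine span_Lef ?_
    rcases hm with hm | hm
    · exact N208.LC.main_LC N803.LCADB.main N208.LC.su_main N492.LCAP1.main N738.LCAP2.main
        hA.toHL hA.toHF hm hφ
    · exact N208.LC.main_all N803.LCADB.main (N160.LCBRG.main N297.LCCOREG.main) N208.LC.su_main
        N492.LCAP1.main hA.toHL hA.toHF (fun q hq => hm.mem hq) hφ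
  have key' : ∀ φ : Form A m, IsDeRhamBettiForm QBar A.dR tau m φ →
      φ ∈ Submodule.span ℚ {ψ | IsProductOfHodgeBilinear (A.per : A.H1 →+ (Fin g → ℂ)) ψ} :=
    fun φ hφ => (Submodule.span_mono fun ψ hψ => AbVar.LefProd_hodge
      (fun Q hQ => A.hodge_end (A.mem_EA.1 hQ)) hψ) (key φ hφ)
  have h1 := fun (n : ℕ) φ hφ => N208.LC.main_pow (A := A) (m := m) (n := n) key' φ hφ
  refine ⟨h1, fun n φ hφ => N208.LC.alt_span φ (h1 n _ hφ), fun f t hf φ hφ => ?_⟩
  exact respects_of (key φ hφ) hf

end Pool.Agent.Results.MP_77d3f5_ag.MixedSignaturePowers
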